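import Mathlib

set_option autoImplicit false

/-! An algebra of operators in which all register machines can be modelled. -/

namespace Pool.Agent.N575.WK

open MvPolynomial

variable (K : Type) [Field K] (J : Type)

/-- The middle space. -/
abbrev Nn : Type := MvPolynomial J K × (J → MvPolynomial J K)

/-- The whole space. -/
abbrev Vv : Type := K × Nn K J × K

variable {K J}

/-- Operators of the form `(f, g) ↦ (h f, h g_j + α_j ∂_j f + β_j f)`. -/
def IsS (r : Module.End K (Nn K J)) : Prop :=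
  ∃ (h : MvPolynomial J K) (α β : J → MvPolynomial J K),
    ∀ v, r v = (h * v.1, fun j => h * v.2 j + α j * pderiv j v.1 + β j * v.1)

theorem IsS.zero : IsS (0 : Module.End K (Nn K J)) :=
  ⟨0, 0, 0, fun v => by ext <;> simp⟩

theorem IsS.add {r s : Module.End K (Nn K J)} (hr : IsS r) (hs : IsS s) : IsS (r + s) := by
  obtain ⟨h, α, β, e⟩ := hr
  obtain ⟨h', α', β', e'⟩ := hs
  refine ⟨h + h', α + α', β + β', fun v => ?_⟩
  rw [LinearMap.add_apply, e, e', Prod.mk_add_mk]
  congr 1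
  · ring
  · funext j
    simp only [Pi.add_apply]
    ring

theorem IsS.smul {r : Module.End K (Nn K J)} (c : K) (hr : IsS r) : IsS (c • r) := by
  obtain ⟨h, α, β, e⟩ := hr
  refine ⟨c • h, c • α, c • β, fun v => ?_⟩
  rw [LinearMap.smul_apply, e, Prod.smul_mk]
  congr 1
  · rw [smul_mul_assoc]
  · funext j
    simp only [Pi.smul_apply, smul_mul_assoc, smul_add]

theorem IsS.mul {r s : Module.End K (Nn K J)} (hr : IsS r) (hs : IsS s) : IsS (r * s) := by
  obtain ⟨h, α, β, e⟩ := hr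
  obtain ⟨h', α', β', e'⟩ := hs
  refine ⟨h * h', fun j => h * α' j + α j * h', fun j => h * β' j + α j * pderiv j h' + β j * h',
    fun v => ?_⟩
  rw [Module.End.mul_apply, e', e]
  congr 1
  · simp only; ring
  · funext j
    simp only [Derivation.leibniz, smul_eq_mul]
    ring

/-- Commutators are multiplications. -/
theorem IsS.comm {r s : Module.End K (Nn K J)} (hr : IsS r) (hs : IsS s) :
    ∃ κ : J → MvPolynomial J K, ∀ v, (r * s - s * r) v = (0, fun j => κ j * v.1) := by
  obtain ⟨h, α, β, e⟩ := hr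
  obtain ⟨h', α', β', e'⟩ := hs
  refine ⟨fun j => α j * pderiv j h' - α' j * pderiv j h, fun v => ?_⟩
  rw [LinearMap.sub_apply, Module.End.mul_apply, Module.End.mul_apply, e', e, e, e', Prod.mk_sub_mk]
  congr 1
  · simp only; ring
  · funext j
    simp only [Derivation.leibniz, smul_eq_mul, Pi.sub_apply]
    ring

theorem IsS.comm_mul {r s t u : Module.End K (Nn K J)} (hr : IsS r) (hs : IsS s) (ht : IsS t)
    (hu : IsS u) : (r * s - s * r) * (t * u - u * t) = 0 := by
  obtain ⟨κ, hκ⟩ := hr.comm hs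
  obtain ⟨κ', hκ'⟩ := ht.comm hu
  refine LinearMap.ext fun v => ?_
  rw [Module.End.mul_apply, hκ', hκ]
  simp only [mul_zero, LinearMap.zero_apply]
  rfl

theorem IsS.comm_central {r s t : Module.End K (Nn K J)} (hr : IsS r) (hs : IsS s) (ht : IsS t) :
    (r * s - s * r) * t - t * (r * s - s * r) = 0 := by
  obtain ⟨κ, hκ⟩ := hr.comm hs
  obtain ⟨h, α, β, e⟩ := ht
  refine LinearMap.ext fun v => ?_
  rw [LinearMap.sub_apply, Module.End.mul_apply, Module.End.mul_apply, hκ, hκ, e, e, Prod.mk_sub_mk,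
    LinearMap.zero_apply]
  apply Prod.ext
  · simp
  · funext j
    simp only [Pi.sub_apply, map_zero, mul_zero, Prod.snd_zero, Pi.zero_apply]
    ring

/-- The operators of the model, with their components. -/
def HasC (T : Module.End K (Vv K J)) (r : Module.End K (Nn K J)) (m : Nn K J →ₗ[K] K) (n : Nn K J)
    (w : K) : Prop :=
  ∀ v, T v = (m v.2.1 + w * v.2.2, r v.2.1 + v.2.2 • n, 0)

theorem HasC.zero : HasC (0 : Module.End K (Vv K J)) 0 0 0 0 := fun v => by
  simp only [LinearMap.zero_apply, zero_mul, add_zero, smul_zero]; rfl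

theorem HasC.add {T T' : Module.End K (Vv K J)} {r r' m m' n n' w w'} (h : HasC T r m n w)
    (h' : HasC T' r' m' n' w') : HasC (T + T') (r + r') (m + m') (n + n') (w + w') := fun v => by
  rw [LinearMap.add_apply, h, h', Prod.mk_add_mk, Prod.mk_add_mk, LinearMap.add_apply,
    LinearMap.add_apply, smul_add, add_zero]
  congr 1
  · ring
  · congr 1
    abel

theorem HasC.smul {T : Module.End K (Vv K J)} {r m n w} (c : K) (h : HasC T r m n w) :
    HasC (c • T) (c • r) (c • m) (c • n) (c • w) := fun v => by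
  rw [LinearMap.smul_apply, h, Prod.smul_mk, Prod.smul_mk, LinearMap.smul_apply,
    LinearMap.smul_apply, smul_add, smul_add, smul_zero, smul_comm c, smul_mul_assoc]

theorem HasC.mul {T T' : Module.End K (Vv K J)} {r r' m m' n n' w w'} (h : HasC T r m n w)
    (h' : HasC T' r' m' n' w') : HasC (T * T') (r * r') (m ∘ₗ r') (r n') (m n') := fun v => by
  rw [Module.End.mul_apply, h', h]
  simp only [map_add, map_smul, smul_eq_mul, mul_zero, add_zero, zero_smul,
    Module.End.mul_apply, LinearMap.comp_apply]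
  congr 1
  ring

theorem HasC.eq {T T' : Module.End K (Vv K J)} {r m n w} (h : HasC T r m n w)
    (h' : HasC T' r m n w) : T = T' := LinearMap.ext fun v => by rw [h, h']

/-- every choice of components is possible -/
theorem exists_hasC (r : Module.End K (Nn K J)) (m : Nn K J →ₗ[K] K) (n : Nn K J) (w : K) :
    ∃ T : Module.End K (Vv K J), HasC T r m n w := by
  let p2 : Vv K J →ₗ[K] Nn K J := LinearMap.fst K (Nn K J) K ∘ₗ LinearMap.snd K K (Nn K J × K)
  let p3 : Vv K J →ₗ[K] K := LinearMap.snd K (Nn K J) K ∘ₗ LinearMap.snd K K (Nn K J × K)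
  refine ⟨LinearMap.prod (m ∘ₗ p2 + w • p3) (LinearMap.prod (r ∘ₗ p2 + p3.smulRight n) 0), ?_⟩
  intro v
  simp [p2, p3]

variable (K J)

/-- The model algebra. -/
def Mod : NonUnitalSubalgebra K (Module.End K (Vv K J)) where
  carrier := {T | ∃ r m n w, IsS r ∧ HasC T r m n w}
  zero_mem' := ⟨0, 0, 0, 0, IsS.zero, HasC.zero⟩
  add_mem' := by
    rintro T T' ⟨r, m, n, w, hr, h⟩ ⟨r', m', n', w', hr', h'⟩
    exact ⟨_, _, _, _, hr.add hr', h.add h'⟩
  mul_mem' := by
    rintro T T' ⟨r, m, n, w, hr, h⟩ ⟨r', m', n', w', hr', h'⟩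
    exact ⟨_, _, _, _, hr.mul hr', h.mul h'⟩
  smul_mem' := by
    rintro c T ⟨r, m, n, w, hr, h⟩
    exact ⟨_, _, _, _, hr.smul c, h.smul c⟩

variable {K J}

theorem HasC.sub {T T' : Module.End K (Vv K J)} {r r' m m' n n' w w'} (h : HasC T r m n w)
    (h' : HasC T' r' m' n' w') : HasC (T - T') (r - r') (m - m') (n - n') (w - w') := fun v => by
  rw [LinearMap.sub_apply, h, h', Prod.mk_sub_mk, Prod.mk_sub_mk, LinearMap.sub_apply,
    LinearMap.sub_apply, smul_sub, sub_zero]
  congr 1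
  · ring
  · congr 1
    abel

theorem HasC.eq_zero {T : Module.End K (Vv K J)} (h : HasC T 0 0 0 0) : T = 0 := h.eq HasC.zero

/-- first identity -/
theorem id1 {a b c d e f : Module.End K (Vv K J)} (ha : a ∈ Mod K J) (hb : b ∈ Mod K J)
    (hc : c ∈ Mod K J) (hd : d ∈ Mod K J) (he : e ∈ Mod K J) (hf : f ∈ Mod K J) :
    a * (b * c - c * b) * (d * e - e * d) * f = 0 := by
  obtain ⟨ra, ma, na, wa, sa, ha⟩ := ha
  obtain ⟨rb, mb, nb, wb, sb, hb⟩ := hb
  obtain ⟨rc, mc, nc, wc, sc, hc⟩ := hc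
  obtain ⟨rd, md, nd, wd, sd, hd⟩ := hd
  obtain ⟨re, me, ne, we, se, he⟩ := he
  obtain ⟨rf, mf, nf, wf, sf, hf⟩ := hf
  have h := ha.mul (((hb.mul hc).sub (hc.mul hb)).mul (((hd.mul he).sub (he.mul hd)).mul hf))
  have key : (rb * rc - rc * rb) * ((rd * re - re * rd) * rf) = 0 := by
    rw [← mul_assoc, sb.comm_mul sc sd se, zero_mul]
  rw [mul_assoc, mul_assoc]
  apply HasC.eq_zero
  have key2 : (rb * rc - rc * rb) ((rd * re - re * rd) nf) = 0 := by
    rw [← Module.End.mul_apply, sb.comm_mul sc sd se]; rfl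
  rw [key, key2] at h
  simpa using h

/-- second identity -/
theorem id2 {a b c d e : Module.End K (Vv K J)} (ha : a ∈ Mod K J) (hb : b ∈ Mod K J)
    (hc : c ∈ Mod K J) (hd : d ∈ Mod K J) (he : e ∈ Mod K J) :
    a * ((b * c - c * b) * d - d * (b * c - c * b)) * e = 0 := by
  obtain ⟨ra, ma, na, wa, sa, ha⟩ := ha
  obtain ⟨rb, mb, nb, wb, sb, hb⟩ := hb
  obtain ⟨rc, mc, nc, wc, sc, hc⟩ := hc
  obtain ⟨rd, md, nd, wd, sd, hd⟩ := hd
  obtain ⟨re, me, ne, we, se, he⟩ := he
  have h := ha.mul (((((hb.mul hc).sub (hc.mul hb)).mul hd).sub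
    (hd.mul ((hb.mul hc).sub (hc.mul hb)))).mul he)
  have key : ((rb * rc - rc * rb) * rd - rd * (rb * rc - rc * rb)) = 0 := sb.comm_central sc sd
  rw [mul_assoc]
  apply HasC.eq_zero
  rw [key] at h
  simpa using h

end Pool.Agent.N575.WK
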