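import Pool.Agent.N575.WK.Fwd
import Pool.Agent.N575.WK.Model

set_option autoImplicit false

/-! Letters in the model algebra which satisfy the relations of a machine, such that only the
halting configurations get the value of the halting configuration. -/

namespace Pool.Agent.N575.WK

open Pool.Agent.Helper948.Erode MvPolynomial

variable {K : Type} [Field K] {J : Type}

section letters

/-- An element with prescribed components. -/
noncomputable def el (r : Module.End K (Nn K J)) (m : Nn K J →ₗ[K] K) (n : Nn K J) (w : K)
    (hr : IsS r) : Mod K J :=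
  ⟨(exists_hasC r m n w).choose, r, m, n, w, hr, (exists_hasC r m n w).choose_spec⟩

theorem el_has (r : Module.End K (Nn K J)) (m : Nn K J →ₗ[K] K) (n : Nn K J) (w : K)
    (hr : IsS r) : HasC (el r m n w hr).1 r m n w := (exists_hasC r m n w).choose_spec

theorem eq_el {T : Mod K J} {r : Module.End K (Nn K J)} {m : Nn K J →ₗ[K] K} {n : Nn K J} {w : K}
    (hr : IsS r) (h : HasC T.1 r m n w) : T = el r m n w hr :=
  Subtype.ext (h.eq (el_has r m n w hr))

/-- middle elements -/
noncomputable def mid (r : Module.End K (Nn K J)) (hr : IsS r) : Mod K J := el r 0 0 0 hr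

/-- rows -/
noncomputable def row (m : Nn K J →ₗ[K] K) : Mod K J := el 0 m 0 0 IsS.zero

/-- columns -/
noncomputable def col (n : Nn K J) : Mod K J := el 0 0 n 0 IsS.zero

/-- corners -/
noncomputable def cor (w : K) : Mod K J := el 0 0 0 w IsS.zero

theorem mid_has (r : Module.End K (Nn K J)) (hr : IsS r) : HasC (mid r hr).1 r 0 0 0 :=
  el_has r 0 0 0 hr
theorem row_has (m : Nn K J →ₗ[K] K) : HasC (row m).1 0 m 0 0 := el_has 0 m 0 0 IsS.zero
theorem col_has (n : Nn K J) : HasC (col n).1 0 0 n 0 := el_has 0 0 n 0 IsS.zero
theorem cor_has (w : K) : HasC (cor w : Mod K J).1 0 0 0 w := el_has 0 0 0 w IsS.zero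

theorem mid_mul_mid (r s : Module.End K (Nn K J)) (hr : IsS r) (hs : IsS s) :
    mid r hr * mid s hs = mid (r * s) (hr.mul hs) := by
  apply eq_el
  have := (mid_has r hr).mul (mid_has s hs)
  simpa using this

theorem row_mul_mid (m : Nn K J →ₗ[K] K) (s : Module.End K (Nn K J)) (hs : IsS s) :
    row m * mid s hs = row (m ∘ₗ s) := by
  apply eq_el
  have := (row_has m).mul (mid_has s hs)
  simpa using this

theorem mid_mul_col (r : Module.End K (Nn K J)) (hr : IsS r) (n : Nn K J) :
    mid r hr * col n = col (r n) := by
  apply eq_el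
  have := (mid_has r hr).mul (col_has n)
  simpa using this

theorem row_mul_col (m : Nn K J →ₗ[K] K) (n : Nn K J) :
    row m * col n = cor (m n) := by
  apply eq_el
  have := (row_has m).mul (col_has n)
  simpa using this

theorem row_add (m m' : Nn K J →ₗ[K] K) : row m + row m' = row (m + m') := by
  apply eq_el
  have := (row_has m).add (row_has m')
  simpa using this

theorem col_zero : (col 0 : Mod K J) = 0 := Subtype.ext ((col_has (0 : Nn K J)).eq HasC.zero)

theorem cor_zero : (cor 0 : Mod K J) = 0 := Subtype.ext ((cor_has (0 : K)).eq HasC.zero)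

theorem cor_one : (cor 1 : Mod K J) ≠ 0 := by
  intro h
  have h1 : (cor 1 : Mod K J).1 = 0 := congrArg Subtype.val h
  have h2 := cor_has (J := J) (1 : K) (0, 0, 1)
  rw [h1] at h2
  have h3 := congrArg Prod.fst h2
  simp at h3

theorem mid_congr {r s : Module.End K (Nn K J)} (h : r = s) (hr : IsS r) (hs : IsS s) :
    mid r hr = mid s hs := by subst h; rfl

end letters

section ops

/-- multiplication by a polynomial -/
noncomputable def mop (h : MvPolynomial J K) : Module.End K (Nn K J) :=
  LinearMap.prod (LinearMap.mulLeft K h ∘ₗ LinearMap.fst K _ _)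
    (LinearMap.pi fun j => LinearMap.mulLeft K h ∘ₗ LinearMap.proj j ∘ₗ LinearMap.snd K _ _)

theorem mop_apply (h : MvPolynomial J K) (v : Nn K J) :
    mop h v = (h * v.1, fun j => h * v.2 j) := rfl

theorem mop_isS (h : MvPolynomial J K) : IsS (mop h : Module.End K (Nn K J)) :=
  ⟨h, 0, 0, fun v => by rw [mop_apply]; simp⟩

theorem mop_mul (h h' : MvPolynomial J K) :
    (mop h * mop h' : Module.End K (Nn K J)) = mop (h * h') :=
  LinearMap.ext fun v => by
    rw [Module.End.mul_apply, mop_apply, mop_apply, mop_apply]
    simp only [mul_assoc]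

variable [DecidableEq J]

/-- the operator `z_j` -/
noncomputable def zop (j : J) : Module.End K (Nn K J) :=
  LinearMap.prod 0 (LinearMap.pi fun k => if k = j then
    - ((pderiv j).toLinearMap ∘ₗ LinearMap.fst K (MvPolynomial J K) (J → MvPolynomial J K)) else 0)

theorem zop_apply (j : J) (v : Nn K J) :
    zop j v = (0, fun k => if k = j then - pderiv j v.1 else 0) := by
  apply Prod.ext
  · rfl
  · funext k
    change (if k = j then - ((pderiv j).toLinearMap ∘ₗ
      LinearMap.fst K (MvPolynomial J K) (J → MvPolynomial J K)) else 0) v =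
      (if k = j then - pderiv j v.1 else 0)
    split_ifs <;> rfl

theorem zop_isS (j : J) : IsS (zop j : Module.End K (Nn K J)) := by
  refine ⟨0, fun k => if k = j then -1 else 0, 0, fun v => ?_⟩
  rw [zop_apply]
  apply Prod.ext
  · simp
  · funext k
    by_cases h : k = j
    · subst h; simp
    · simp [h]

end ops

section machine

variable {P : Type} [Fintype J] [DecidableEq J] (M : DM P J)

variable (K) in
open Classical in
/-- the indicator of halting -/
noncomputable def phi (o : Option P) (c : J →₀ ℕ) : K :=
  if M.Halts (o, fun j => (c j : ℤ)) then 1 else 0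

variable (K) in
/-- its linear extension -/
noncomputable def Phi (o : Option P) : MvPolynomial J K →ₗ[K] K :=
  (basisMonomials J K).constr K (phi K M o)

omit [Fintype J] [DecidableEq J] in
theorem Phi_mono (o : Option P) (c : J →₀ ℕ) : Phi K M o (monomial c 1) = phi K M o c := by
  have := (basisMonomials J K).constr_basis K (phi K M o) c
  rwa [coe_basisMonomials] at this

/-- the exponent vector of a vector of integers -/
noncomputable def ex (v : J → ℤ) : J →₀ ℕ := Finsupp.equivFunOnFinite.symm fun j => (v j).toNat

omit [DecidableEq J] in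
theorem ex_apply (v : J → ℤ) (j : J) : ex v j = (v j).toNat := rfl

variable (K) in
/-- The functional attached to a test. -/
noncomputable def Theta (p : P) : MvPolynomial J K →ₗ[K] K :=
  (basisMonomials J K).constr K fun c =>
    -((c (M.reg p) : K) + 1)⁻¹ * (phi K M (some p) (c + Finsupp.single (M.reg p) 1) -
      phi K M (M.nxt p false) (ex (M.vec p false) + (c + Finsupp.single (M.reg p) 1)))

omit [DecidableEq J] in
theorem Theta_mono (p : P) (c : J →₀ ℕ) : Theta K M p (monomial c 1) =
    -((c (M.reg p) : K) + 1)⁻¹ * (phi K M (some p) (c + Finsupp.single (M.reg p) 1) -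
      phi K M (M.nxt p false) (ex (M.vec p false) + (c + Finsupp.single (M.reg p) 1))) := by
  have := (basisMonomials J K).constr_basis K (fun c : J →₀ ℕ =>
    -((c (M.reg p) : K) + 1)⁻¹ * (phi K M (some p) (c + Finsupp.single (M.reg p) 1) -
      phi K M (M.nxt p false) (ex (M.vec p false) + (c + Finsupp.single (M.reg p) 1)))) c
  rwa [coe_basisMonomials] at this

omit [Fintype J] [DecidableEq J] in
theorem phi_st (p : P) (c : J → ℤ) (c1 c2 : J →₀ ℕ) (o : Option P)
    (h1 : ∀ j, (c1 j : ℤ) = c j) (h2 : M.st (some p, c) = (o, fun j => (c2 j : ℤ))) :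
    phi K M (some p) c1 = phi K M o c2 := by
  unfold phi
  have e : (fun j => (c1 j : ℤ)) = c := funext h1
  rw [e, ← M.halts_st (some p, c), h2]

theorem Phi_pos (p : P) (f : MvPolynomial J K) :
    Phi K M (some p) (X (M.reg p) * f) =
      Phi K M (M.nxt p true) (monomial (ex (M.vec p true)) 1 * f) := by
  have : (Phi K M (some p)) ∘ₗ (LinearMap.mulLeft K (X (M.reg p))) =
      (Phi K M (M.nxt p true)) ∘ₗ (LinearMap.mulLeft K (monomial (ex (M.vec p true)) 1)) := by
    apply (basisMonomials J K).ext
    intro c
    rw [coe_basisMonomials]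
    simp only [LinearMap.comp_apply, LinearMap.mulLeft_apply]
    rw [X, monomial_mul, monomial_mul, one_mul, Phi_mono, Phi_mono]
    apply phi_st M p (fun j => (((Finsupp.single (M.reg p) 1 + c : J →₀ ℕ) j : ℕ) : ℤ))
    · intro j; rfl
    · have hbr : M.br p (fun j => (((Finsupp.single (M.reg p) 1 + c : J →₀ ℕ) j : ℕ) : ℤ)) =
          true := by
        simp [DM.br]
        positivity
      simp only [DM.st, hbr]
      congr 1
      funext j
      simp only [Pi.add_apply, Finsupp.add_apply, ex_apply]
      by_cases hj : j = M.reg p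
      · subst hj
        rw [M.hp' p, Finsupp.single_apply, if_pos rfl]
        push_cast
        omega
      · have := M.hp p j hj
        rw [Finsupp.single_apply, if_neg (fun h => hj h.symm)]
        omega
  exact LinearMap.congr_fun this f

variable [CharZero K]

theorem Phi_zero (p : P) (f : MvPolynomial J K) :
    Phi K M (some p) f = Phi K M (M.nxt p false) (monomial (ex (M.vec p false)) 1 * f) +
      Theta K M p (- pderiv (M.reg p) f) := by
  have : Phi K M (some p) =
      (Phi K M (M.nxt p false)) ∘ₗ (LinearMap.mulLeft K (monomial (ex (M.vec p false)) 1)) +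
      (Theta K M p) ∘ₗ (-(pderiv (M.reg p)).toLinearMap) := by
    apply (basisMonomials J K).ext
    intro c
    rw [coe_basisMonomials]
    simp only [LinearMap.comp_apply, LinearMap.mulLeft_apply, LinearMap.add_apply,
      LinearMap.neg_apply]
    change _ = _ + (Theta K M p) (- pderiv (M.reg p) (monomial c 1))
    rw [monomial_mul, one_mul, Phi_mono, Phi_mono, pderiv_monomial, one_mul, map_neg]
    by_cases h0 : c (M.reg p) = 0
    · rw [h0, Nat.cast_zero, monomial_zero, map_zero, neg_zero, add_zero]
      apply phi_st M p (fun j => (c j : ℤ))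
      · intro j; rfl
      · have hbr : M.br p (fun j => (c j : ℤ)) = false := by
          simp [DM.br, h0]
        simp only [DM.st, hbr]
        congr 1
        funext j
        simp only [Pi.add_apply, Finsupp.add_apply, ex_apply]
        have := M.hz p j
        omega
    · have e : (monomial (c - Finsupp.single (M.reg p) 1)) ((c (M.reg p) : ℕ) : K) =
          ((c (M.reg p) : ℕ) : K) • (monomial (c - Finsupp.single (M.reg p) 1)) (1 : K) := by
        rw [smul_monomial, smul_eq_mul, mul_one]
      have e2 : c - Finsupp.single (M.reg p) 1 + Finsupp.single (M.reg p) 1 = c := by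
        ext j
        simp only [Finsupp.add_apply, Finsupp.tsub_apply, Finsupp.single_apply]
        split_ifs with h
        · subst h; omega
        · omega
      have e3 : (((c - Finsupp.single (M.reg p) 1 : J →₀ ℕ) (M.reg p) : ℕ) : K) + 1 =
          ((c (M.reg p) : ℕ) : K) := by
        have : (c - Finsupp.single (M.reg p) 1 : J →₀ ℕ) (M.reg p) + 1 = c (M.reg p) := by
          simp only [Finsupp.tsub_apply, Finsupp.single_apply, if_true]
          omega
        exact_mod_cast this
      have h1 : ((c (M.reg p) : ℕ) : K) ≠ 0 := by exact_mod_cast h0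
      rw [e, map_smul, Theta_mono, e2, e3, smul_eq_mul]
      field_simp
      ring
  exact LinearMap.congr_fun this f

omit [Fintype J] [DecidableEq J] [CharZero K] in
theorem Phi_none (i : J) (f : MvPolynomial J K) : Phi K M none (X i * f) = Phi K M none f := by
  have : (Phi K M none) ∘ₗ (LinearMap.mulLeft K (X i)) = Phi K M none := by
    apply (basisMonomials J K).ext
    intro c
    rw [coe_basisMonomials]
    simp only [LinearMap.comp_apply, LinearMap.mulLeft_apply]
    have h : ∀ c : J →₀ ℕ, phi K M none c = 1 := fun c => if_pos ⟨0, rfl⟩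
    rw [X, monomial_mul, one_mul, Phi_mono, Phi_mono, h, h]
  exact LinearMap.congr_fun this f

/-! ### The letters -/

/-- the letters for states -/
noncomputable def Em (o : Option P) : Mod K J := row (Phi K M o ∘ₗ LinearMap.fst K _ _)

/-- the letters for tests -/
noncomputable def Am (p : P) : Mod K J :=
  row (Theta K M p ∘ₗ LinearMap.proj (M.reg p) ∘ₗ LinearMap.snd K _ _)

/-- the letters for registers -/
noncomputable def xm (j : J) : Mod K J := mid (mop (X j)) (mop_isS _)

/-- the auxiliary letters -/
noncomputable def zm (j : J) : Mod K J := mid (zop j) (zop_isS j)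

variable (K J) in
/-- the last letter -/
noncomputable def Bm : Mod K J := col (1, 0)

omit [Fintype J] [DecidableEq J] [CharZero K] in
theorem wd_row (l : List J) : ∀ m : Nn K J →ₗ[K] K,
    wd (xm (K := K)) l (row m) = row (m ∘ₗ mop ((l.map X).prod)) := by
  induction l with
  | nil =>
    intro m
    rw [wd_nil]
    congr 1
    refine LinearMap.ext fun v => ?_
    rw [LinearMap.comp_apply, mop_apply]
    simp
  | cons j l ih =>
    intro m
    rw [wd_cons, xm, row_mul_mid, ih, LinearMap.comp_assoc]
    congr 2
    rw [List.map_cons, List.prod_cons]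
    exact mop_mul _ _

omit [CharZero K] in
theorem prod_lst (v : J → ℤ) :
    ((lst v).map (X : J → MvPolynomial J K)).prod = monomial (ex v) 1 := by
  rw [Finset.prod_list_map_count]
  have h1 : ∏ m ∈ (lst v).toFinset, (X m : MvPolynomial J K) ^ (lst v).count m =
      ∏ m : J, (X m : MvPolynomial J K) ^ (v m).toNat := by
    rw [← Finset.prod_subset (Finset.subset_univ (lst v).toFinset)]
    · refine Finset.prod_congr rfl fun j _ => ?_
      rw [count_lst]
    · intro j _ hj
      have : (lst v).count j = 0 := by
        rw [List.count_eq_zero]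
        intro h
        exact hj (List.mem_toFinset.2 h)
      rw [count_lst] at this
      rw [this, pow_zero]
  rw [h1, monomial_eq, map_one, one_mul, Finsupp.prod_fintype]
  · rfl
  · intro i; rw [pow_zero]

theorem rels_model : Rels M (Em (K := K) M) (Am M) xm zm (Bm K J) where
  xx i j := by
    unfold xm
    rw [mid_mul_mid, mid_mul_mid]
    apply mid_congr
    rw [mop_mul, mop_mul, mul_comm]
  zx i j hij := by
    unfold xm zm
    rw [mid_mul_mid, mid_mul_mid]
    apply mid_congr
    refine LinearMap.ext fun v => ?_
    rw [Module.End.mul_apply, Module.End.mul_apply, mop_apply, zop_apply, zop_apply, mop_apply]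
    apply Prod.ext
    · simp
    · funext k
      simp only
      by_cases hk : k = j
      · subst hk
        rw [if_pos rfl, if_pos rfl, Derivation.leibniz, pderiv_X_of_ne hij]
        simp
      · rw [if_neg hk, if_neg hk, mul_zero]
  zB j := by
    unfold zm Bm
    rw [mid_mul_col, zop_apply]
    have : ((0, fun k => if k = j then - pderiv j (1 : MvPolynomial J K) else 0) : Nn K J) = 0 := by
      apply Prod.ext
      · rfl
      · funext k
        simp
    rw [this, col_zero]
  pos p := by
    unfold Em
    rw [xm, row_mul_mid, wd_row, prod_lst]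
    congr 1
    refine LinearMap.ext fun v => ?_
    exact Phi_pos M p v.1
  zero p := by
    unfold Em Am
    rw [zm, row_mul_mid, wd_row, prod_lst, row_add]
    congr 1
    refine LinearMap.ext fun v => ?_
    have h := Phi_zero M p v.1 (K := K)
    have h2 : (zop (M.reg p) v).2 (M.reg p) = - pderiv (M.reg p) v.1 := by
      rw [zop_apply]; simp
    rw [← h2] at h
    exact h
  halt j := by
    unfold Em
    rw [xm, row_mul_mid]
    congr 1
    refine LinearMap.ext fun v => ?_
    exact Phi_none M j v.1

omit [CharZero K] in
theorem cf_model (o : Option P) (c : J → ℤ) :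
    cf (Em (K := K) M) xm (Bm K J) (o, c) = cor (phi K M o (ex c)) := by
  unfold cf Em Bm
  simp only
  rw [wd_row, prod_lst, row_mul_col]
  congr 1
  simp only [LinearMap.comp_apply, mop_apply, LinearMap.fst_apply, mul_one]
  exact Phi_mono M o (ex c)

omit [Fintype J] [DecidableEq J] [CharZero K] in
theorem end_model : Em (K := K) M none * Bm K J = cor 1 := by
  unfold Em Bm
  rw [row_mul_col]
  congr 1
  simp only [LinearMap.comp_apply, LinearMap.fst_apply]
  have := Phi_mono (K := K) M none 0
  rw [show (monomial (0 : J →₀ ℕ) (1 : K)) = 1 from rfl] at this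
  rw [this]
  exact if_pos ⟨0, rfl⟩

omit [CharZero K] in
/-- only halting configurations have the final value -/
theorem halts_of_model (o : Option P) (c : J → ℤ) (hc : ∀ j, 0 ≤ c j)
    (h : cf (Em (K := K) M) xm (Bm K J) (o, c) = Em M none * Bm K J) : M.Halts (o, c) := by
  rw [cf_model, end_model] at h
  by_contra hn
  have : phi K M o (ex c) = 0 := by
    apply if_neg
    have e : (fun j => ((ex c j : ℕ) : ℤ)) = c := by
      funext j
      rw [ex_apply, Int.toNat_of_nonneg (hc j)]
    rwa [e]
  rw [this, cor_zero] at h
  exact cor_one h.symm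

end machine

end Pool.Agent.N575.WK
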