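import Mathlib

set_option autoImplicit false

/-! Noncommutative polynomials without constant term, varieties of associative algebras given by
identities, word problems. -/

namespace Pool.Agent.N575.WK

/-- The free (non-unital) associative `K`-algebra on the set `X`: noncommutative polynomials over
`K` in the variables `X` without constant term (combinations of nonempty words). -/
abbrev Poly (K X : Type) [Field K] : Type := MonoidAlgebra K (FreeSemigroup X)

section
variable {K X : Type} [Field K]

/-- The word with first letter `x` and remaining letters `l`. -/
noncomputable def mono (x : X) (l : List X) : Poly K X := MonoidAlgebra.single ⟨x, l⟩ 1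

/-- A variable. -/
noncomputable def var (x : X) : Poly K X := mono x []

variable {A : Type} [NonUnitalRing A] [Module K A] [IsScalarTower K A A] [SMulCommClass K A A]

/-- The value of a polynomial at a tuple of elements of an associative algebra. -/
noncomputable def ev (a : X → A) : Poly K X →ₙₐ[K] A :=
  MonoidAlgebra.liftMagma K (FreeSemigroup.lift a)

/-- The polynomial with the terms `ν c · (word x l)`, for the entries `(c, x, l)` of the list. -/
noncomputable def dec {C : Type} (ν : C → K) (w : List (C × X × List X)) : Poly K X :=
  (w.map fun t => ν t.1 • mono t.2.1 t.2.2).sum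

end

/-- The algebra `A` satisfies the identities `S` (polynomials in the variables `x_0, x_1, …`). -/
def Sat (K : Type) [Field K] (A : Type) [NonUnitalRing A] [Module K A] [IsScalarTower K A A]
    [SMulCommClass K A A] (S : Set (Poly K ℕ)) : Prop :=
  ∀ f ∈ S, ∀ a : ℕ → A, ev a f = 0

/-- The commutator. -/
def cmm {A : Type} [NonUnitalRing A] (a b : A) : A := a * b - b * a

/-- `Van S R f`: the polynomial `f` represents `0` in the algebra with the generators `X` and the
defining relations `R` in the variety defined by the identities `S`; that is, `f` lies in the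
smallest ideal of the free algebra containing `R` and all values of the identities `S`. -/
inductive Van {K X : Type} [Field K] (S : Set (Poly K ℕ)) (R : Set (Poly K X)) : Poly K X → Prop
  | rel (f : Poly K X) : f ∈ R → Van S R f
  | ident (f : Poly K ℕ) (g : ℕ → Poly K X) : f ∈ S → Van S R (ev g f)
  | zero : Van S R 0
  | add (f g : Poly K X) : Van S R f → Van S R g → Van S R (f + g)
  | smul (c : K) (f : Poly K X) : Van S R f → Van S R (c • f)
  | mul_left (g f : Poly K X) : Van S R f → Van S R (g * f)
  | mul_right (f g : Poly K X) : Van S R f → Van S R (f * g)

/-- A constructive structure on the field `K`: a numbering of the elements for which the field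
operations and equality are computable. -/
structure Constructive (K : Type) [Field K] where
  /-- the numbering -/
  ν : ℕ → K
  surj : Function.Surjective ν
  add : ∃ f : ℕ → ℕ → ℕ, Computable₂ f ∧ ∀ a b, ν (f a b) = ν a + ν b
  mul : ∃ f : ℕ → ℕ → ℕ, Computable₂ f ∧ ∀ a b, ν (f a b) = ν a * ν b
  neg : ∃ f : ℕ → ℕ, Computable f ∧ ∀ a, ν (f a) = - ν a
  inv : ∃ f : ℕ → ℕ, Computable f ∧ ∀ a, ν a ≠ 0 → ν (f a) = (ν a)⁻¹
  eq : ComputablePred fun p : ℕ × ℕ => ν p.1 = ν p.2

/-- The word problem is decidable in the variety defined by the identities `S`: for every finitely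
presented algebra of the variety there is an algorithm which decides whether a given polynomial in
the generators represents `0`. -/
def WordProblemDecidable {K : Type} [Field K] (c : Constructive K) (S : Set (Poly K ℕ)) : Prop :=
  ∀ (n : ℕ) (R : Finset (Poly K (Fin n))),
    ComputablePred fun w : List (ℕ × Fin n × List (Fin n)) => Van S (R : Set (Poly K (Fin n)))
      (dec c.ν w)

/-- The defining identities `x₀[x₁,x₂][x₃,x₄]x₅ = 0` and `x₀[x₁,x₂,x₃]x₄ = 0` of `W_K`. -/
noncomputable def WIdent (K : Type) [Field K] : Set (Poly K ℕ) :=
  {var 0 * cmm (var 1) (var 2) * cmm (var 3) (var 4) * var 5,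
    var 0 * cmm (cmm (var 1) (var 2)) (var 3) * var 4}

/-- The variety defined by `S` contains the variety `W_K`. -/
def ContainsW (K : Type) [Field K] (S : Set (Poly K ℕ)) : Prop :=
  ∀ (A : Type) [NonUnitalRing A] [Module K A] [IsScalarTower K A A] [SMulCommClass K A A],
    Sat K A (WIdent K) → Sat K A S

end Pool.Agent.N575.WK
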