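import Pool.Agent.N575.WK.M3

set_option autoImplicit false

/-! The letters in the algebra of `3 × 3` matrices. -/

namespace Pool.Agent.N575.WK

open Pool.Agent.Helper948.Erode MvPolynomial

noncomputable section

variable {K : Type} [Field K] {J : Type} 

/-- constants -/
def cst (f : MvPolynomial J K) : Cc K J := fun _ => TrivSqZeroExt.inl f

theorem cst_mul (f g : MvPolynomial J K) : cst (f * g) = cst f * cst g := by
  funext j
  exact TrivSqZeroExt.inl_mul _ f g

theorem cst_one : cst (1 : MvPolynomial J K) = 1 := rfl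

/-- rows -/
def rw3 (θ : Yy K J) : M3 K J := Matrix.single 0 2 (TrivSqZeroExt.inr θ)

/-- rows in the middle column -/
def rv3 (θ : Yy K J) : M3 K J := Matrix.single 0 1 (TrivSqZeroExt.inr θ)

theorem rw3_00 (θ : Yy K J) : rw3 θ 0 0 = 0 := by simp [rw3, Matrix.single]
theorem rw3_01 (θ : Yy K J) : rw3 θ 0 1 = 0 := by simp [rw3, Matrix.single]
theorem rw3_02 (θ : Yy K J) : rw3 θ 0 2 = TrivSqZeroExt.inr θ := by simp [rw3, Matrix.single]
theorem rw3_1 (θ : Yy K J) (k : Fin 3) : rw3 θ 1 k = 0 := by simp [rw3, Matrix.single]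
theorem rw3_2 (θ : Yy K J) (k : Fin 3) : rw3 θ 2 k = 0 := by simp [rw3, Matrix.single]
theorem rv3_00 (θ : Yy K J) : rv3 θ 0 0 = 0 := by simp [rv3, Matrix.single]
theorem rv3_02 (θ : Yy K J) : rv3 θ 0 2 = 0 := by simp [rv3, Matrix.single]
theorem rv3_01 (θ : Yy K J) : rv3 θ 0 1 = TrivSqZeroExt.inr θ := by simp [rv3, Matrix.single]
theorem rv3_1 (θ : Yy K J) (k : Fin 3) : rv3 θ 1 k = 0 := by simp [rv3, Matrix.single]
theorem rv3_2 (θ : Yy K J) (k : Fin 3) : rv3 θ 2 k = 0 := by simp [rv3, Matrix.single]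

variable [DecidableEq J]

variable (K) in
/-- the register letters -/
def x3 (i : J) : M3 K J :=
  !![0, 0, 0; 0, TrivSqZeroExt.inl (cst (X i)), TrivSqZeroExt.inl (Pi.single i 1);
    0, 0, TrivSqZeroExt.inl (cst (X i))]

variable (K) in
/-- the coefficient of the auxiliary letters -/
def zc (j : J) : Cc K J := - Pi.single j (TrivSqZeroExt.inr 1)

variable (K) in
/-- the auxiliary letters -/
def z3 (j : J) : M3 K J := !![0, 0, 0; 0, TrivSqZeroExt.inl (zc K j), 0; 0, 0, 0]

variable (K J) in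
/-- the last letter -/
def b3 : M3 K J := !![0, 0, 0; 0, 0, 0; 1, 0, 0]

theorem rw3_mul_x3 (θ : Yy K J) (i : J) : rw3 θ * x3 K i =
    rw3 (cst (X i : MvPolynomial J K) • θ) := by
  ext1 p q
  rw [Matrix.mul_apply, Fin.sum_univ_three]
  fin_cases p
  · simp only [Fin.zero_eta, Fin.isValue]
    rw [rw3_00, rw3_01, rw3_02]
    fin_cases q
    · simp [x3, rw3_00]
    · simp [x3, rw3_01]
    · simp [x3, rw3_02, TrivSqZeroExt.inr_mul_inl]
  · simp only [Fin.mk_one, Fin.isValue]
    rw [rw3_1, rw3_1, rw3_1, rw3_1]; simp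
  · simp only [Fin.reduceFinMk]
    rw [rw3_2, rw3_2, rw3_2, rw3_2]; simp

theorem rv3_mul_z3 (θ : Yy K J) (j : J) : rv3 θ * z3 K j = rv3 (zc K j • θ) := by
  ext1 p q
  rw [Matrix.mul_apply, Fin.sum_univ_three]
  fin_cases p
  · simp only [Fin.zero_eta, Fin.isValue]
    rw [rv3_00, rv3_01, rv3_02]
    fin_cases q
    · simp [z3, rv3_00]
    · simp [z3, rv3_01, TrivSqZeroExt.inr_mul_inl]
    · simp [z3, rv3_02]
  · simp only [Fin.mk_one, Fin.isValue]
    rw [rv3_1, rv3_1, rv3_1, rv3_1]; simp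
  · simp only [Fin.reduceFinMk]
    rw [rv3_2, rv3_2, rv3_2, rv3_2]; simp

theorem x3_comm (i j : J) : x3 K i * x3 K j = x3 K j * x3 K i := by
  have h : TrivSqZeroExt.inl (cst (X i)) * TrivSqZeroExt.inl (cst (X j)) =
      (TrivSqZeroExt.inl (cst (X j)) * TrivSqZeroExt.inl (cst (X i)) : Cd K J) := mul_comm _ _
  have h2 : TrivSqZeroExt.inl (cst (X i)) * TrivSqZeroExt.inl (Pi.single j 1) +
      TrivSqZeroExt.inl (Pi.single i 1) * TrivSqZeroExt.inl (cst (X j)) =
      (TrivSqZeroExt.inl (cst (X j)) * TrivSqZeroExt.inl (Pi.single i 1) +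
      TrivSqZeroExt.inl (Pi.single j 1) * TrivSqZeroExt.inl (cst (X i)) : Cd K J) := by ring
  ext1 p q
  rw [Matrix.mul_apply, Fin.sum_univ_three, Matrix.mul_apply, Fin.sum_univ_three]
  fin_cases p <;> fin_cases q <;> simp [x3, h, h2]

theorem z3_x3 (i j : J) (hij : i ≠ j) : z3 K j * x3 K i = x3 K i * z3 K j := by
  have h : TrivSqZeroExt.inl (cst (X i)) * TrivSqZeroExt.inl (zc K j) =
      (TrivSqZeroExt.inl (zc K j) * TrivSqZeroExt.inl (cst (X i)) : Cd K J) := mul_comm _ _
  have h2 : (TrivSqZeroExt.inl (zc K j) * TrivSqZeroExt.inl (Pi.single i 1) : Cd K J) = 0 := by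
    rw [← TrivSqZeroExt.inl_mul]
    have : zc K j * Pi.single i 1 = 0 := by
      funext k
      by_cases hk : k = i
      · subst hk
        simp [zc, Pi.single_eq_of_ne hij]
      · simp [Pi.single_eq_of_ne hk]
    rw [this, TrivSqZeroExt.inl_zero]
  ext1 p q
  rw [Matrix.mul_apply, Fin.sum_univ_three, Matrix.mul_apply, Fin.sum_univ_three]
  fin_cases p <;> fin_cases q <;> simp [x3, z3, h, h2]

theorem z3_b3 (j : J) : z3 K j * b3 K J = 0 := by
  ext1 p q
  rw [Matrix.mul_apply, Fin.sum_univ_three]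
  fin_cases p <;> fin_cases q <;> simp [b3, z3]

theorem good_x3 (i : J) : Good (x3 K i) (X i) 0 := by
  constructor
  · simp [x3]
  · simp [x3]
  · simp [x3]
  · intro j; simp [x3, red_def, cst]
  · intro j; simp [x3, red_def, cst]
  · intro j
    rw [pderiv_X]
    by_cases h : j = i
    · subst h; simp [x3, red_def]
    · simp [x3, red_def, Pi.single_eq_of_ne h, Pi.single_eq_of_ne (Ne.symm h)]
  · intro j; simp [x3, red_def]
  · intro j; simp [x3, red_def]
  · intro j; simp [x3, red_def]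

theorem good_z3 (i : J) : Good (z3 K i) 0 0 := by
  constructor
  · simp [z3]
  · simp [z3]
  · simp [z3]
  · intro j
    by_cases h : j = i
    · subst h; simp [z3, red_def, zc]
    · simp [z3, red_def, zc, Pi.single_eq_of_ne h]
  · intro j; simp [z3, red_def]
  · intro j; simp [z3, red_def]
  · intro j; simp [z3, red_def]
  · intro j; simp [z3, red_def]
  · intro j; simp [z3, red_def]

omit [DecidableEq J] in
theorem good_b3 : Good (b3 K J) 0 1 := by
  constructor
  · simp [b3]
  · simp [b3]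
  · simp [b3]
  · intro j; simp [b3]
  · intro j; simp [b3]
  · intro j; simp [b3]
  · intro j; simp [b3]
  · intro j; simp [b3]
  · intro j; simp [b3]

omit [DecidableEq J] in
theorem good_rw3 (θ : Yy K J) : Good (rw3 θ) 0 0 := by
  constructor
  · rw [rw3_00]; rfl
  · rw [rw3_01]; rfl
  · rw [rw3_02]; rfl
  all_goals intro j
  all_goals first | rw [rw3_1] | rw [rw3_2]
  all_goals simp

omit [DecidableEq J] in
theorem good_rv3 (θ : Yy K J) : Good (rv3 θ) 0 0 := by
  constructor
  · rw [rv3_00]; rfl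
  · rw [rv3_01]; rfl
  · rw [rv3_02]; rfl
  all_goals intro j
  all_goals first | rw [rv3_1] | rw [rv3_2]
  all_goals simp

/-- the functional attached to a functional on polynomials, first kind -/
def fun0 (j0 : J) (φ : MvPolynomial J K →ₗ[K] K) : Yy K J :=
  (φ ∘ₗ
    { toFun := fun c : Cc K J => (c j0).fst
      map_add' := fun _ _ => rfl
      map_smul' := fun _ _ => rfl } : Cc K J →ₗ[K] K)

/-- second kind -/
def fun1 (j0 : J) (φ : MvPolynomial J K →ₗ[K] K) : Yy K J :=
  (φ ∘ₗ
    { toFun := fun c : Cc K J => (c j0).snd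
      map_add' := fun _ _ => rfl
      map_smul' := fun _ _ => rfl } : Cc K J →ₗ[K] K)

omit [DecidableEq J] in
theorem fun0_at (j0 : J) (φ : MvPolynomial J K →ₗ[K] K) (c : Cc K J) :
    (fun0 j0 φ).at c = φ (c j0).fst := rfl

omit [DecidableEq J] in
theorem fun1_at (j0 : J) (φ : MvPolynomial J K →ₗ[K] K) (c : Cc K J) :
    (fun1 j0 φ).at c = φ (c j0).snd := rfl

omit [DecidableEq J] in
theorem cst_fun0_at (j0 : J) (φ : MvPolynomial J K →ₗ[K] K) (f : MvPolynomial J K) (c : Cc K J) :
    (cst f • fun0 j0 φ).at c = φ (f * (c j0).fst) := rfl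

theorem zc_fun1_at (j : J) (φ : MvPolynomial J K →ₗ[K] K) (c : Cc K J) :
    (zc K j • fun1 j φ).at c = φ (-(c j).fst) := by
  rw [smul_at, fun1_at]
  congr 1
  rw [Pi.mul_apply, TrivSqZeroExt.snd_mul]
  simp [zc]

theorem wd_rw3 (l : List J) : ∀ θ : Yy K J,
    wd (x3 K) l (rw3 θ) = rw3 (cst ((l.map X).prod : MvPolynomial J K) • θ) := by
  induction l with
  | nil => intro θ; rw [wd_nil, List.map_nil, List.prod_nil, cst_one, one_smul]
  | cons j l ih =>
    intro θ
    rw [wd_cons, rw3_mul_x3, ih, List.map_cons, List.prod_cons, cst_mul, smul_smul, mul_comm]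

section machine

variable {P : Type} [Fintype J] (M : DM P J) (j0 : J)

/-- the letters -/
def let3 : Lt P J → M3 K J
  | Sum.inl o => rw3 (fun0 j0 (Phi K M o))
  | Sum.inr (Sum.inl p) => rv3 (fun1 (M.reg p) (Theta K M p))
  | Sum.inr (Sum.inr (Sum.inl j)) => x3 K j
  | Sum.inr (Sum.inr (Sum.inr (Sum.inl j))) => z3 K j
  | Sum.inr (Sum.inr (Sum.inr (Sum.inr _))) => b3 K J

theorem let3_good (l : Lt P J) : let3 (K := K) M j0 l ∈ GoodAlg K J := by
  rcases l with o | p | j | j | _
  · exact ⟨_, _, good_rw3 _⟩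
  · exact ⟨_, _, good_rv3 _⟩
  · exact ⟨_, _, good_x3 j⟩
  · exact ⟨_, _, good_z3 j⟩
  · exact ⟨_, _, good_b3⟩

omit [DecidableEq J] [Fintype J] in
theorem psi_apply (T : M3 K J) : psi K J T = (T 0 0).snd.at 1 := rfl

omit [DecidableEq J] [Fintype J] in
/-- products with a row from the left -/
theorem row_facts {T : M3 K J} (h1 : ∀ k, T 1 k = 0) (h2 : ∀ k, T 2 k = 0) (h00 : T 0 0 = 0)
    (a b : Yy K J) (h01 : T 0 1 = TrivSqZeroExt.inr a) (h02 : T 0 2 = TrivSqZeroExt.inr b)
    (key : ∀ Q h g, Good Q h g → a.at (Q 1 0).fst + b.at (Q 2 0).fst = 0) :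
    psi K J T = 0 ∧ (∀ p ∈ GoodAlg K J, psi K J (p * T) = 0) ∧
      (∀ q ∈ GoodAlg K J, psi K J (T * q) = 0) ∧
      (∀ p ∈ GoodAlg K J, ∀ q ∈ GoodAlg K J, psi K J (p * T * q) = 0) := by
  have hq : ∀ q : M3 K J, (T * q) 0 0 = TrivSqZeroExt.inr (((q 1 0).fst • a) + ((q 2 0).fst • b)) := by
    intro q
    rw [Matrix.mul_apply, Fin.sum_univ_three, h00, h01, h02, zero_mul, zero_add]
    apply TrivSqZeroExt.ext
    · simp
    · rw [TrivSqZeroExt.snd_add, TrivSqZeroExt.snd_mul, TrivSqZeroExt.snd_mul]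
      simp
  have hq1 : ∀ q : M3 K J, (T * q) 1 0 = 0 := by
    intro q
    rw [Matrix.mul_apply, Fin.sum_univ_three, h1, h1, h1]; simp
  have hq2 : ∀ q : M3 K J, (T * q) 2 0 = 0 := by
    intro q
    rw [Matrix.mul_apply, Fin.sum_univ_three, h2, h2, h2]; simp
  refine ⟨?_, ?_, ?_, ?_⟩
  · rw [psi_apply, h00]; rfl
  · intro p _
    rw [psi_apply, Matrix.mul_apply, Fin.sum_univ_three, h00, h1, h2]
    simp only [mul_zero, add_zero]
    rfl
  · rintro q ⟨h, g, H⟩
    rw [psi_apply, hq, TrivSqZeroExt.snd_inr, add_at, smul_at, smul_at, mul_one, mul_one]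
    exact key q h g H
  · rintro p ⟨h, g, H⟩ q _
    rw [psi_apply, mul_assoc, Matrix.mul_apply, Fin.sum_univ_three, hq1, hq2, hq, mul_zero,
      mul_zero, add_zero, add_zero, TrivSqZeroExt.snd_mul, H.e00]
    simp [zero_at]

variable [CharZero K] {X : Type} (e : Lt P J → X)

include j0 in
/-- Only halting configurations become equal to the final one in the variety generated by the
algebra of matrices of order at least three. -/
theorem halts_of_mat (he : Function.Injective e) {n : ℕ} (hn : 3 ≤ n)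
    (s : Option P × (J → ℤ)) (hs : ∀ j, 0 ≤ s.2 j)
    (h : Van (MatIdent K n) (relSet e M K) (cfP e K s - lE e var none * lB e var)) :
    M.Halts s := by
  classical
  have : Infinite K := Infinite.of_injective (Nat.cast : ℕ → K) Nat.cast_injective
  let a : X → M3 K J := Function.extend e (let3 M j0) 0
  have hab : ∀ l, a (e l) = let3 M j0 l := fun l => he.extend_apply _ 0 l
  have ha : ∀ x, a x ∈ GoodAlg K J := by
    intro x
    by_cases hx : ∃ l, e l = x
    · obtain ⟨l, rfl⟩ := hx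
      rw [hab]; exact let3_good M j0 l
    · have : a x = 0 := Function.extend_apply' _ _ _ hx
      rw [this]; exact zero_mem _
  have hSat : Sat K (M3 K J) (MatIdent K n) := fun f hf b => matIdent_le hn hf b
  have tE : ∀ o, ev a (lE e var o : Poly K X) = rw3 (fun0 j0 (Phi K M o)) := fun o =>
    (ev_var _ _).trans (hab _)
  have tA : ∀ p, ev a (lA e var p : Poly K X) = rv3 (fun1 (M.reg p) (Theta K M p)) := fun p =>
    (ev_var _ _).trans (hab _)
  have tx : ∀ j, ev a (lx e var j : Poly K X) = x3 K j := fun j => (ev_var _ _).trans (hab _)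
  have tz : ∀ j, ev a (lz e var j : Poly K X) = z3 K j := fun j => (ev_var _ _).trans (hab _)
  have tB : ev a (lB e var : Poly K X) = b3 K J := (ev_var _ _).trans (hab _)
  have hwd : ∀ (l : List J) (q : Poly K X), ev a (wd (lx e var) l q) = wd (x3 K) l (ev a q) := by
    intro l q
    rw [ev_wd]
    congr 1
    funext j
    exact tx j
  -- the relations
  have hrel : ∀ r ∈ relSet e M K, psi K J (ev a r) = 0 ∧
      (∀ p ∈ GoodAlg K J, psi K J (p * ev a r) = 0) ∧
      (∀ q ∈ GoodAlg K J, psi K J (ev a r * q) = 0) ∧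
      (∀ p ∈ GoodAlg K J, ∀ q ∈ GoodAlg K J, psi K J (p * ev a r * q) = 0) := by
    have triv : ∀ T : M3 K J, T = 0 → psi K J T = 0 ∧
      (∀ p ∈ GoodAlg K J, psi K J (p * T) = 0) ∧
      (∀ q ∈ GoodAlg K J, psi K J (T * q) = 0) ∧
      (∀ p ∈ GoodAlg K J, ∀ q ∈ GoodAlg K J, psi K J (p * T * q) = 0) := by
      rintro T rfl
      simp only [mul_zero, zero_mul, map_zero, implies_true, and_self]
    rintro _ ⟨r, rfl⟩
    rcases r with ⟨i, j⟩ | ⟨i, j⟩ | j | p | p | j
    · apply triv
      simp only [relOf, map_sub, map_mul, tx]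
      exact sub_eq_zero.2 (x3_comm i j)
    · apply triv
      simp only [relOf]
      split_ifs with hij
      · exact map_zero _
      · simp only [map_sub, map_mul, tx, tz]
        exact sub_eq_zero.2 (z3_x3 i j hij)
    · apply triv
      simp only [relOf, map_mul, tz, tB]
      exact z3_b3 j
    · apply triv
      simp only [relOf, map_sub, map_mul, hwd, tE, tx]
      rw [rw3_mul_x3, wd_rw3, prod_lst, sub_eq_zero]
      congr 1
      apply Yy.ext'
      intro c
      rw [cst_fun0_at, cst_fun0_at]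
      exact Phi_pos M p _
    · have hr : ev a (relOf e M K (Sum.inr (Sum.inr (Sum.inr (Sum.inr (Sum.inl p)))))) =
          rw3 (fun0 j0 (Phi K M (some p))) -
            (rw3 (cst (monomial (ex (M.vec p false)) (1 : K)) • fun0 j0 (Phi K M (M.nxt p false))) +
              rv3 (zc K (M.reg p) • fun1 (M.reg p) (Theta K M p))) := by
        simp only [relOf, map_sub, map_add, map_mul, hwd, tE, tA, tz]
        rw [rv3_mul_z3, wd_rw3, prod_lst]
      rw [hr]
      apply row_facts (a := - (zc K (M.reg p) • fun1 (M.reg p) (Theta K M p)))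
        (b := fun0 j0 (Phi K M (some p)) -
          cst (monomial (ex (M.vec p false)) (1 : K)) • fun0 j0 (Phi K M (M.nxt p false)))
      · intro k
        rw [Matrix.sub_apply, Matrix.add_apply, rw3_1, rw3_1, rv3_1]; simp
      · intro k
        rw [Matrix.sub_apply, Matrix.add_apply, rw3_2, rw3_2, rv3_2]; simp
      · rw [Matrix.sub_apply, Matrix.add_apply, rw3_00, rw3_00, rv3_00]; simp
      · rw [Matrix.sub_apply, Matrix.add_apply, rw3_01, rw3_01, rv3_01]
        simp [TrivSqZeroExt.inr_neg]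
      · rw [Matrix.sub_apply, Matrix.add_apply, rw3_02, rw3_02, rv3_02]
        simp [TrivSqZeroExt.inr_sub]
      · intro Q h g H
        rw [neg_at, sub_at, zc_fun1_at, cst_fun0_at, fun0_at]
        have h1 := H.e10 (M.reg p)
        have h2 := H.e20 j0
        rw [red_def] at h1 h2
        rw [h1, h2, Phi_zero M p g]
        ring
    · apply triv
      simp only [relOf, map_sub, map_mul, tE, tx]
      rw [rw3_mul_x3, sub_eq_zero]
      congr 1
      apply Yy.ext'
      intro c
      rw [cst_fun0_at, fun0_at]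
      exact Phi_none M j _
  have hmain := h.sound_mod hSat a (GoodAlg K J) ha (psi K J) (fun r hr => (hrel r hr).1)
    (fun r hr => (hrel r hr).2.1) (fun r hr => (hrel r hr).2.2.1) (fun r hr => (hrel r hr).2.2.2)
  obtain ⟨o, c⟩ := s
  have hb : ∀ θ : Yy K J, psi K J (rw3 θ * b3 K J) = θ.at 1 := by
    intro θ
    rw [psi_apply, Matrix.mul_apply, Fin.sum_univ_three, rw3_00, rw3_01, rw3_02]
    simp [b3]
  have h1 : psi K J (ev a (cfP e K (o, c))) = phi K M o (ex c) := by
    unfold cfP cf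
    simp only
    rw [map_mul, hwd, tE, tB, wd_rw3, prod_lst, hb, cst_fun0_at]
    change Phi K M o (_ * 1) = _
    rw [mul_one, Phi_mono]
  have h2 : psi K J (ev a (lE e var none * lB e var : Poly K X)) = 1 := by
    rw [map_mul, tE, tB, hb, fun0_at]
    have := Phi_mono (K := K) M none 0
    have h3 : phi K M none 0 = 1 := if_pos ⟨0, rfl⟩
    rw [h3] at this
    exact this
  rw [map_sub, map_sub, h1, h2, sub_eq_zero] at hmain
  by_contra hnot
  have : phi K M o (ex c) = 0 := by
    apply if_neg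
    have e : (fun j => ((ex c j : ℕ) : ℤ)) = c := by
      funext j
      rw [ex_apply, Int.toNat_of_nonneg (hs j)]
    rwa [e]
  rw [this] at hmain
  exact zero_ne_one hmain

end machine

end

end Pool.Agent.N575.WK
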