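import Pool.Agent.N575.WK.Std
import Pool.Agent.N575.WK.M3b

set_option autoImplicit false

/-! The equality problem. -/

namespace Pool.Agent.N575.WK

/-- Codes of noncommutative polynomials with rational coefficients, without constant term: the
entry `((z, d), x, l)` stands for the term `z / (d + 1)` times the word `x l`. -/
abbrev PCode : Type := List ((ℤ × ℕ) × ℕ × List ℕ)

/-- The polynomial with a given code. -/
noncomputable def decQ (K : Type) [Field K] (u : PCode) : Poly K ℕ :=
  dec (fun q : ℤ × ℕ => (q.1 : K) / ((q.2 : K) + 1)) u

/-- The quasi-identity `u₁ = 0 ∧ … ∧ u_k = 0 → u = 0`, where `us = [u₁, …, u_k]`, holds in every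
algebra of the variety defined by the identities `S`. -/
def QHolds (K : Type) [Field K] (S : Set (Poly K ℕ)) (us : List PCode) (u : PCode) : Prop :=
  ∀ (A : Type) [NonUnitalRing A] [Module K A] [IsScalarTower K A A] [SMulCommClass K A A],
    Sat K A S → ∀ a : ℕ → A, (∀ v ∈ us, ev a (decQ K v) = 0) → ev a (decQ K u) = 0

/-- The equality problem of the variety defined by the identities `S` is decidable. -/
def EqualityDecidable (K : Type) [Field K] (S : Set (Poly K ℕ)) : Prop :=
  ComputablePred fun q : List PCode × PCode => QHolds K S q.1 q.2

/-- Some algebra which is finitely presented in the variety defined by the identities `S` has an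
undecidable word problem. -/
def SomeUndecidable (K : Type) [Field K] (S : Set (Poly K ℕ)) : Prop :=
  ∃ us : List PCode, ¬ ComputablePred fun u : PCode => QHolds K S us u

end Pool.Agent.N575.WK
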