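import Pool.Agent.N575.WK.Pres

set_option autoImplicit false

/-! Every variety containing `W_K` has undecidable word problem. -/

namespace Pool.Agent.N575.WK

open Pool.Agent.Helper948.Erode

/-- A fixed register machine with undecidable halting problem. -/
theorem exists_machine : ∃ (P : Type) (_ : Finite P) (D : DM P (Bool × Bool)) (p0 : P) (N : ℕ → ℕ),
    Computable N ∧ ¬ ComputablePred (fun n => D.Halts (some p0, v4 (N n) 0 0 0)) := by
  obtain ⟨Q, hQ, M, q0, N, _, hN, h⟩ := exists_sys
  refine ⟨RS M, inferInstance, dm M q0 0, .d1 q0 (z0 M), N, hN, ?_⟩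
  intro hc
  apply h
  refine hc.of_eq ?_
  intro n
  exact dm_halts_iff M q0 0 q0 (ini (N n))

theorem lst_single {J : Type} [Fintype J] [DecidableEq J] (v : J → ℤ) (j0 : J) (k : ℕ)
    (h0 : v j0 = k) (h1 : ∀ j, j ≠ j0 → v j = 0) : lst v = List.replicate k j0 := by
  rw [← List.perm_replicate, List.perm_iff_count]
  intro j
  rw [count_lst, List.count_replicate]
  by_cases h : j = j0
  · subst h; simp [h0]
  · have h2 : (j0 == j) = false := by rw [beq_eq_false_iff_ne]; exact fun h' => h h'.symm
    simp [h1 j h, h2]

theorem lst_v4 (k : ℕ) : lst (v4 k 0 0 0) = List.replicate k (false, true) := by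
  apply lst_single
  · rfl
  · rintro ⟨a, b⟩ h
    cases a <;> cases b <;> first | rfl | exact absurd rfl h

section
variable {P X K : Type} [Field K] (e : Lt P (Bool × Bool) → X)

theorem cfP_eq (o : Option P) (k : ℕ) : cfP e K (o, v4 k 0 0 0) =
    mono (e (Sum.inl o)) (List.replicate k (e (Sum.inr (Sum.inr (Sum.inl (false, true))))) ++
      [e (Sum.inr (Sum.inr (Sum.inr (Sum.inr ()))))]) := by
  unfold cfP cf
  simp only
  rw [lst_v4]
  have h := wd_var (K := K) (fun j => e (Sum.inr (Sum.inr (Sum.inl j))))
    (List.replicate k ((false, true) : Bool × Bool)) (e (Sum.inl o)) []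
  have h2 : wd (lx e var) (List.replicate k ((false, true) : Bool × Bool)) (lE e var o) =
      (mono (e (Sum.inl o)) (List.replicate k (e (Sum.inr (Sum.inr (Sum.inl (false, true)))))) :
        Poly K X) := by
    rw [List.nil_append, List.map_replicate] at h
    exact h
  rw [h2]
  exact mono_mul_var _ _ _

theorem final_eq : lE e var none * lB e var = (mono (e (Sum.inl none))
    [e (Sum.inr (Sum.inr (Sum.inr (Sum.inr ()))))] : Poly K X) :=
  mono_mul_var _ _ _

end

theorem replicate_computable {X : Type} [Primcodable X] (x : X) :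
    Computable fun k : ℕ => List.replicate k x := by
  have h : Primrec fun k : ℕ => (List.range k).map fun _ => x :=
    Primrec.list_map Primrec.list_range (Primrec.const x).to₂
  refine h.to_comp.of_eq fun k => ?_
  rw [List.map_const', List.length_range]

/-- the words of the inputs are computable -/
theorem code_computable {X C : Type} [Primcodable X] [Primcodable C] (c1 c2 : C) (a b c d : X)
    (N : ℕ → ℕ) (hN : Computable N) :
    Computable fun n : ℕ => [(c1, a, List.replicate (N n) b ++ [c]), (c2, d, [c])] := by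
  have h1 : Computable fun n : ℕ => List.replicate (N n) b ++ [c] :=
    Computable.list_append.comp ((replicate_computable b).comp hN) (Computable.const [c])
  have h2 : Computable fun n : ℕ => (c1, a, List.replicate (N n) b ++ [c]) :=
    Computable.pair (Computable.const c1) (Computable.pair (Computable.const a) h1)
  exact Computable.list_cons.comp h2 (Computable.const [(c2, d, [c])])

theorem dec_two {X C K : Type} [Field K] (ν : C → K) (c1 c2 : C) (h1 : ν c1 = 1) (h2 : ν c2 = -1)
    (a d : X) (l l' : List X) :
    dec ν [(c1, a, l), (c2, d, l')] = (mono a l - mono d l' : Poly K X) := by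
  simp [dec, h1, h2, sub_eq_add_neg]

/-- The algebra of the model satisfies the identities of `W_K`. -/
theorem sat_model (K J : Type) [Field K] : Sat K (Mod K J) (WIdent K) := by
  rintro f (rfl | rfl) a
  · simp only [cmm, map_mul, map_sub, ev_var]
    apply Subtype.ext
    simp only [NonUnitalSubalgebra.coe_mul, NonUnitalSubalgebra.coe_sub, 
      NonUnitalSubalgebra.coe_zero]
    exact id1 (a 0).2 (a 1).2 (a 2).2 (a 3).2 (a 4).2 (a 5).2
  · simp only [cmm, map_mul, map_sub, ev_var]
    apply Subtype.ext
    simp only [NonUnitalSubalgebra.coe_mul, NonUnitalSubalgebra.coe_sub, 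
      NonUnitalSubalgebra.coe_zero]
    exact id2 (a 0).2 (a 1).2 (a 2).2 (a 3).2 (a 4).2

/-- Every variety which contains the model algebra has an undecidable word problem. -/
theorem undecidable_of_model {K : Type} [Field K] [CharZero K] (c : Constructive K)
    (S : Set (Poly K ℕ)) (hS : Sat K (Mod K (Bool × Bool)) S) : ¬ WordProblemDecidable c S := by
  classical
  intro hW
  obtain ⟨P, hP, D, p0, N, hN, hD⟩ := exists_machine
  obtain ⟨n, ⟨e⟩⟩ := Finite.exists_equiv_fin (Lt P (Bool × Bool))
  obtain ⟨c1, h1⟩ := c.surj 1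
  obtain ⟨c2, h2⟩ := c.surj (-1)
  have hfin := relSet_finite (e : Lt P (Bool × Bool) → Fin n) D K
  have h := hW n hfin.toFinset
  apply hD
  have hcomp := code_computable c1 c2 (e (Sum.inl (some p0)))
    (e (Sum.inr (Sum.inr (Sum.inl (false, true)))))
    (e (Sum.inr (Sum.inr (Sum.inr (Sum.inr ()))))) (e (Sum.inl none)) N hN
  have hred : (fun n => D.Halts (some p0, v4 (N n) 0 0 0)) ≤₀
      (fun w => Van S (hfin.toFinset : Set (Poly K (Fin n))) (dec c.ν w)) := by
    refine ⟨_, hcomp, fun m => ?_⟩
    have hv : ∀ j, 0 ≤ v4 ((N m : ℕ) : ℤ) 0 0 0 j := by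
      rintro ⟨a, b⟩
      cases a <;> cases b <;> simp [v4]
    show D.Halts (some p0, v4 (N m) 0 0 0) ↔ Van S (hfin.toFinset : Set (Poly K (Fin n)))
      (dec c.ν [(c1, e (Sum.inl (some p0)),
          List.replicate (N m) (e (Sum.inr (Sum.inr (Sum.inl (false, true))))) ++
            [e (Sum.inr (Sum.inr (Sum.inr (Sum.inr ()))))]),
        (c2, e (Sum.inl none), [e (Sum.inr (Sum.inr (Sum.inr (Sum.inr ()))))])])
    rw [dec_two c.ν c1 c2 h1 h2, Set.Finite.coe_toFinset]
    have e1 := cfP_eq (K := K) (e : Lt P (Bool × Bool) → Fin n) (some p0) (N m)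
    have e2 := final_eq (K := K) (e : Lt P (Bool × Bool) → Fin n)
    rw [← e1, ← e2]
    constructor
    · intro hh
      exact fwd_van e D K S _ hv hh
    · intro hh
      obtain ⟨a, ha, hb⟩ := exists_model (K := K) (e : Lt P (Bool × Bool) → Fin n) D e.injective
      exact hb _ hv (hh.sound hS a ha)
  exact ComputablePred.computable_of_manyOneReducible hred h

/-- **Main theorem.** -/
theorem main {K : Type} [Field K] [CharZero K] (c : Constructive K)
    (S : Set (Poly K ℕ)) (hS : ContainsW K S) : ¬ WordProblemDecidable c S :=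
  undecidable_of_model c S (hS _ (sat_model K _))

end Pool.Agent.N575.WK
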