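import Pool.Agent.N575.WK.Pres

set_option autoImplicit false

/-! The finitely presented algebra as a quotient; `Van` is the consequence relation. -/

namespace Pool.Agent.N575.WK

variable {K X : Type} [Field K] (S : Set (Poly K ℕ)) (R : Set (Poly K X))

/-- The algebra with generators `X` and relations `R` in the variety defined by `S`. -/
abbrev FP : Type := (vcon S R).Quotient

/-- the class of a polynomial -/
noncomputable def cls (f : Poly K X) : FP S R := (f : (vcon S R).Quotient)

theorem cls_eq (f g : Poly K X) : cls S R f = cls S R g ↔ Van S R (f - g) := vcon_iff S R f g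

theorem cls_surj : Function.Surjective (cls S R) := Quotient.mk''_surjective

noncomputable instance : SMul K (FP S R) where
  smul c := Quotient.map' (c • ·) fun f g h => by
    have h1 : Van S R (f - g) := h
    have h2 := Van.smul c _ h1
    rw [smul_sub] at h2
    exact h2

theorem smul_cls (c : K) (f : Poly K X) : c • cls S R f = cls S R (c • f) := rfl
theorem add_cls (f g : Poly K X) : cls S R f + cls S R g = cls S R (f + g) := rfl
theorem mul_cls (f g : Poly K X) : cls S R f * cls S R g = cls S R (f * g) := rfl
theorem zero_cls : (0 : FP S R) = cls S R 0 := rfl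

noncomputable instance : Module K (FP S R) where
  one_smul x := by
    obtain ⟨f, rfl⟩ := cls_surj S R x
    rw [smul_cls, one_smul]
  mul_smul a b x := by
    obtain ⟨f, rfl⟩ := cls_surj S R x
    rw [smul_cls, smul_cls, smul_cls, mul_smul]
  smul_zero a := by rw [zero_cls, smul_cls, smul_zero]
  smul_add a x y := by
    obtain ⟨f, rfl⟩ := cls_surj S R x
    obtain ⟨g, rfl⟩ := cls_surj S R y
    rw [smul_cls, smul_cls, add_cls, smul_cls, add_cls, smul_add]
  add_smul a b x := by
    obtain ⟨f, rfl⟩ := cls_surj S R x
    rw [smul_cls, smul_cls, smul_cls, add_cls, add_smul]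
  zero_smul x := by
    obtain ⟨f, rfl⟩ := cls_surj S R x
    rw [zero_cls, smul_cls, zero_smul]

instance : IsScalarTower K (FP S R) (FP S R) where
  smul_assoc c x y := by
    obtain ⟨f, rfl⟩ := cls_surj S R x
    obtain ⟨g, rfl⟩ := cls_surj S R y
    rw [smul_eq_mul, smul_eq_mul, smul_cls, mul_cls, mul_cls, smul_cls, smul_mul_assoc]

instance : SMulCommClass K (FP S R) (FP S R) where
  smul_comm c x y := by
    obtain ⟨f, rfl⟩ := cls_surj S R x
    obtain ⟨g, rfl⟩ := cls_surj S R y
    rw [smul_eq_mul, smul_eq_mul, smul_cls, mul_cls, mul_cls, smul_cls, mul_smul_comm]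

/-- the projection as a homomorphism -/
noncomputable def clsHom : Poly K X →ₙₐ[K] FP S R where
  toFun := cls S R
  map_smul' _ _ := rfl
  map_zero' := rfl
  map_add' _ _ := rfl
  map_mul' _ _ := rfl

theorem ev_cls {Y : Type} (g : Y → Poly K X) (f : Poly K Y) :
    ev (fun i => cls S R (g i)) f = cls S R (ev g f) := by
  have : (clsHom S R).comp (ev g) = ev (fun i => cls S R (g i)) := by
    apply hom_ext
    intro x
    rw [NonUnitalAlgHom.comp_apply, ev_var, ev_var]
    rfl
  exact (DFunLike.congr_fun this f).symm

theorem ev_self (f : Poly K X) : ev (fun i => (var i : Poly K X)) f = f := by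
  have : ev (fun i => (var i : Poly K X)) = NonUnitalAlgHom.id K (Poly K X) := by
    apply hom_ext
    intro x
    rw [ev_var]; rfl
  rw [this]; rfl

theorem sat_FP : Sat K (FP S R) S := by
  intro f hf a
  choose g hg using fun i => cls_surj S R (a i)
  have : a = fun i => cls S R (g i) := funext fun i => (hg i).symm
  rw [this, ev_cls, zero_cls, cls_eq, sub_zero]
  exact Van.ident f g hf

/-- `Van S R f` says that `f = 0` is a consequence of `R = 0` in the variety defined by `S`. -/
theorem van_iff (f : Poly K X) : Van S R f ↔
    ∀ (A : Type) [NonUnitalRing A] [Module K A] [IsScalarTower K A A] [SMulCommClass K A A],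
      Sat K A S → ∀ a : X → A, (∀ r ∈ R, ev a r = 0) → ev a f = 0 := by
  constructor
  · intro h A _ _ _ _ hA a ha
    exact h.sound hA a ha
  · intro h
    have h1 := h (FP S R) (sat_FP S R) (fun i => cls S R (var i)) (fun r hr => by
      rw [ev_cls, ev_self, zero_cls, cls_eq, sub_zero]
      exact Van.rel r hr)
    rwa [ev_cls, ev_self, zero_cls, cls_eq, sub_zero] at h1

end Pool.Agent.N575.WK
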