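import Pool.Agent.N575.WK.EqDefs
import Pool.Agent.N575.WK.Main
import Pool.Agent.N575.WK.Quot

set_option autoImplicit false

/-! The equality problem is undecidable. -/

namespace Pool.Agent.N575.WK

open Pool.Agent.Helper948.Erode

section codes

variable (K : Type) [Field K] [CharZero K]

/-- polynomials with a code -/
def Dbl (f : Poly K ℕ) : Prop := ∃ u : PCode, decQ K u = f

variable {K}

theorem Dbl.var (x : ℕ) : Dbl K (var x) := ⟨[((1, 0), x, [])], by
  simp [decQ, dec]; rfl⟩

omit [CharZero K] in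
theorem Dbl.zero : Dbl K 0 := ⟨[], by simp [decQ, dec]⟩

omit [CharZero K] in
theorem Dbl.add {f g : Poly K ℕ} (hf : Dbl K f) (hg : Dbl K g) : Dbl K (f + g) := by
  obtain ⟨u, rfl⟩ := hf
  obtain ⟨v, rfl⟩ := hg
  exact ⟨u ++ v, by simp [decQ, dec]⟩

omit [CharZero K] in
theorem Dbl.neg {f : Poly K ℕ} (hf : Dbl K f) : Dbl K (-f) := by
  obtain ⟨u, rfl⟩ := hf
  refine ⟨u.map fun t => ((-t.1.1, t.1.2), t.2), ?_⟩
  induction u with
  | nil => simp [decQ, dec]
  | cons t u ih =>
    simp only [decQ, dec, List.map_cons, List.sum_cons] at ih ⊢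
    rw [ih, neg_add]
    congr 1
    push_cast
    rw [neg_div, neg_smul]

omit [CharZero K] in
theorem Dbl.sub {f g : Poly K ℕ} (hf : Dbl K f) (hg : Dbl K g) : Dbl K (f - g) := by
  rw [sub_eq_add_neg]; exact hf.add hg.neg

omit [CharZero K] in
theorem Dbl.mul_var {f : Poly K ℕ} (hf : Dbl K f) (y : ℕ) :
    Dbl K (f * Pool.Agent.N575.WK.var y) := by
  obtain ⟨u, rfl⟩ := hf
  refine ⟨u.map fun t => (t.1, t.2.1, t.2.2 ++ [y]), ?_⟩
  induction u with
  | nil => simp [decQ, dec]
  | cons t u ih =>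
    simp only [decQ, dec, List.map_cons, List.sum_cons] at ih ⊢
    rw [ih, add_mul, smul_mul_assoc, mono_mul_var]

variable {P J : Type} [Fintype J] [DecidableEq J] (e : Lt P J → ℕ) (M : DM P J)

theorem dbl_wd (l : List J) : ∀ f : Poly K ℕ, Dbl K f → Dbl K (wd (lx e Pool.Agent.N575.WK.var) l f) := by
  induction l with
  | nil => intro f hf; exact hf
  | cons j l ih => intro f hf; rw [wd_cons]; exact ih _ (hf.mul_var _)

theorem dbl_rel (r : RIx P J) : Dbl K (relOf e M K r) := by
  rcases r with ⟨i, j⟩ | ⟨i, j⟩ | j | p | p | j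
  · exact ((Dbl.var _).mul_var _).sub ((Dbl.var _).mul_var _)
  · simp only [relOf]
    split_ifs
    · exact Dbl.zero
    · exact ((Dbl.var _).mul_var _).sub ((Dbl.var _).mul_var _)
  · exact (Dbl.var _).mul_var _
  · exact ((Dbl.var _).mul_var _).sub (dbl_wd e _ _ (Dbl.var _))
  · exact (Dbl.var _).sub ((dbl_wd e _ _ (Dbl.var _)).add ((Dbl.var _).mul_var _))
  · exact ((Dbl.var _).mul_var _).sub (Dbl.var _)

/-- a finite list of codes of the relations -/
theorem exists_codes [Finite P] : ∃ us : List PCode, ∀ f : Poly K ℕ,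
    (∃ u ∈ us, decQ K u = f) ↔ f ∈ relSet e M K := by
  classical
  haveI : Fintype P := Fintype.ofFinite P
  choose c hc using fun r : RIx P J => dbl_rel (K := K) e M r
  refine ⟨(Finset.univ : Finset (RIx P J)).toList.map c, fun f => ?_⟩
  constructor
  · rintro ⟨u, hu, rfl⟩
    obtain ⟨r, _, rfl⟩ := List.mem_map.1 hu
    exact ⟨r, (hc r).symm⟩
  · rintro ⟨r, rfl⟩
    exact ⟨c r, List.mem_map.2 ⟨r, by simp, rfl⟩, hc r⟩

end codes

/-- Undecidability from the models. -/
theorem undec_of {K : Type} [Field K] [CharZero K] (S : Set (Poly K ℕ))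
    (hS : ∀ (P : Type) [Finite P] (D : DM P (Bool × Bool)) (e : Lt P (Bool × Bool) → ℕ),
      Function.Injective e → ∀ s : Option P × (Bool × Bool → ℤ), (∀ j, 0 ≤ s.2 j) →
      Van S (relSet e D K) (cfP e K s - lE e var none * lB e var) → D.Halts s) :
    SomeUndecidable K S := by
  classical
  obtain ⟨P, hP, D, p0, N, hN, hD⟩ := exists_machine
  obtain ⟨n, ⟨e'⟩⟩ := Finite.exists_equiv_fin (Lt P (Bool × Bool))
  let e : Lt P (Bool × Bool) → ℕ := fun l => (e' l : ℕ)
  have he : Function.Injective e := fun a b h => e'.injective (Fin.ext h)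
  obtain ⟨us, hus⟩ := exists_codes (K := K) e D
  refine ⟨us, fun h => hD ?_⟩
  have hcomp := code_computable ((1, 0) : ℤ × ℕ) (-1, 0) (e (Sum.inl (some p0)))
    (e (Sum.inr (Sum.inr (Sum.inl (false, true)))))
    (e (Sum.inr (Sum.inr (Sum.inr (Sum.inr ()))))) (e (Sum.inl none)) N hN
  have hred : (fun n => D.Halts (some p0, v4 (N n) 0 0 0)) ≤₀ (fun u => QHolds K S us u) := by
    refine ⟨_, hcomp, fun m => ?_⟩
    have hv : ∀ j, 0 ≤ v4 ((N m : ℕ) : ℤ) 0 0 0 j := by
      rintro ⟨a, b⟩
      cases a <;> cases b <;> simp [v4]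
    have hcode : decQ K [((1, 0), e (Sum.inl (some p0)),
          List.replicate (N m) (e (Sum.inr (Sum.inr (Sum.inl (false, true))))) ++
            [e (Sum.inr (Sum.inr (Sum.inr (Sum.inr ()))))]),
        ((-1, 0), e (Sum.inl none), [e (Sum.inr (Sum.inr (Sum.inr (Sum.inr ()))))])] =
        cfP e K (some p0, v4 (N m) 0 0 0) - lE e var none * lB e var := by
      rw [cfP_eq, final_eq]
      exact dec_two _ _ _ (by simp) (by simp) _ _ _ _
    show D.Halts (some p0, v4 (N m) 0 0 0) ↔ QHolds K S us _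
    constructor
    · intro hh A _ _ _ _ hA a ha
      rw [hcode]
      exact (fwd_van e D K S _ hv hh).sound hA a (fun r hr => by
        obtain ⟨u, hu, rfl⟩ := (hus r).2 hr
        exact ha u hu)
    · intro hh
      apply hS P D e he _ hv
      rw [van_iff]
      intro A _ _ _ _ hA a ha
      have := hh A hA a (fun v hv' => ha _ ((hus _).1 ⟨v, hv', rfl⟩))
      rwa [hcode] at this
  exact ComputablePred.computable_of_manyOneReducible hred h

theorem undec_mat {K : Type} [Field K] [CharZero K] {n : ℕ} (hn : 3 ≤ n) :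
    SomeUndecidable K (MatIdent K n) :=
  undec_of _ fun _ _ D e he s hs h => halts_of_mat D (false, true) e he hn s hs h

theorem undec_model {K : Type} [Field K] [CharZero K] {S : Set (Poly K ℕ)}
    (hS : Sat K (Mod K (Bool × Bool)) S) : SomeUndecidable K S :=
  undec_of _ fun _ _ D e he s hs h => by
    obtain ⟨a, ha, hb⟩ := exists_model (K := K) e D he
    exact hb s hs (h.sound hS a ha)

theorem undec_std {K : Type} [Field K] [CharZero K] {n : ℕ} (hn : 6 ≤ n) :
    SomeUndecidable K {stdPoly K n} := by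
  apply undec_model
  rintro f rfl a
  apply std_zero _ hn
  intro a b c d e f
  apply Subtype.ext
  simp only [NonUnitalSubalgebra.coe_mul, NonUnitalSubalgebra.coe_sub,
    NonUnitalSubalgebra.coe_zero]
  exact id1 a.2 b.2 c.2 d.2 e.2 f.2

theorem not_equality {K : Type} [Field K] {S : Set (Poly K ℕ)} (h : SomeUndecidable K S) :
    ¬ EqualityDecidable K S := by
  obtain ⟨us, hus⟩ := h
  intro hd
  apply hus
  have : (fun u => QHolds K S us u) ≤₀ (fun q : List PCode × PCode => QHolds K S q.1 q.2) :=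
    ⟨fun u => (us, u), Computable.pair (Computable.const us) Computable.id, fun u => Iff.rfl⟩
  exact ComputablePred.computable_of_manyOneReducible this hd

end Pool.Agent.N575.WK
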