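import Mathlib
import Pool.Agent.Helper948.Erode.Reg

set_option autoImplicit false

/-! Simulation of a register machine by words in a ring. -/

namespace Pool.Agent.N575.WK

open Pool.Agent.Helper948.Erode

section words

variable {J : Type} {Q : Type} [NonUnitalRing Q]

/-- right multiplication by the letters of a list -/
def wd (x : J → Q) (l : List J) (q : Q) : Q := l.foldl (fun q j => q * x j) q

theorem wd_nil (x : J → Q) (q : Q) : wd x [] q = q := rfl

theorem wd_cons (x : J → Q) (j : J) (l : List J) (q : Q) : wd x (j :: l) q = wd x l (q * x j) := rfl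

theorem wd_append (x : J → Q) (l l' : List J) (q : Q) : wd x (l ++ l') q = wd x l' (wd x l q) := by
  simp [wd, List.foldl_append]

theorem wd_add (x : J → Q) (l : List J) : ∀ a b : Q, wd x l (a + b) = wd x l a + wd x l b := by
  induction l with
  | nil => intro a b; rfl
  | cons j l ih =>
    intro a b
    rw [wd_cons, wd_cons, wd_cons, add_mul, ih]

theorem wd_perm (x : J → Q) (hx : ∀ i j, x i * x j = x j * x i) {l l' : List J} (h : l.Perm l')
    (q : Q) : wd x l q = wd x l' q := by
  unfold wd
  apply h.foldl_eq' 
  intro a _ b _ q
  rw [mul_assoc, mul_assoc, hx]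

theorem wd_z (x : J → Q) (z : Q) (l : List J) (hl : ∀ i ∈ l, z * x i = x i * z) :
    ∀ q : Q, wd x l (q * z) = wd x l q * z := by
  induction l with
  | nil => intro q; rfl
  | cons j l ih =>
    intro q
    rw [wd_cons, wd_cons, mul_assoc, hl j (by simp), ← mul_assoc,
      ih (fun i hi => hl i (List.mem_cons_of_mem _ hi))]

theorem wd_fix (x : J → Q) (e : Q) (he : ∀ j, e * x j = e) (l : List J) : wd x l e = e := by
  induction l with
  | nil => rfl
  | cons j l ih => rw [wd_cons, he, ih]

end words

section lists

variable {J : Type} [Fintype J] [DecidableEq J]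

/-- the list containing `j` exactly `v j` times -/
noncomputable def lst (v : J → ℤ) : List J :=
  (Finset.univ : Finset J).toList.flatMap fun j => List.replicate (v j).toNat j

theorem count_lst (v : J → ℤ) (i : J) : (lst v).count i = (v i).toNat := by
  unfold lst
  rw [List.count_flatMap]
  rw [Finset.sum_map_toList]
  simp [List.count_replicate]

end lists

/-- The relations satisfied by the letters. -/
structure Rels {P J Q : Type} [NonUnitalRing Q] [Fintype J] [DecidableEq J] (M : DM P J)
    (E : Option P → Q) (A : P → Q) (x z : J → Q) (B : Q) : Prop where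
  xx : ∀ i j, x i * x j = x j * x i
  zx : ∀ i j, i ≠ j → z j * x i = x i * z j
  zB : ∀ j, z j * B = 0
  pos : ∀ p, E (some p) * x (M.reg p) = wd x (lst (M.vec p true)) (E (M.nxt p true))
  zero : ∀ p, E (some p) = wd x (lst (M.vec p false)) (E (M.nxt p false)) + A p * z (M.reg p)
  halt : ∀ j, E none * x j = E none

variable {P J Q : Type} [NonUnitalRing Q] [Fintype J] [DecidableEq J] {M : DM P J}
  {E : Option P → Q} {A : P → Q} {x z : J → Q} {B : Q}

/-- the value of a configuration -/
noncomputable def cf (E : Option P → Q) (x : J → Q) (B : Q) (s : Option P × (J → ℤ)) : Q :=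
  wd x (lst s.2) (E s.1) * B

theorem cf_step (R : Rels M E A x z B) (s : Option P × (J → ℤ)) (hs : ∀ j, 0 ≤ s.2 j) :
    cf E x B (M.st s) = cf E x B s := by
  obtain ⟨o, c⟩ := s
  cases o with
  | none => rw [DM.st_none]
  | some p =>
    simp only at hs
    by_cases hp : 0 < c (M.reg p)
    · have hst : M.st (some p, c) = (M.nxt p true, c + M.vec p true) := by
        simp [DM.st, DM.br, hp]
      rw [hst]
      unfold cf
      simp only
      have hperm : (lst c ++ lst (M.vec p true)).Perm (M.reg p :: lst (c + M.vec p true)) := by
        rw [List.perm_iff_count]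
        intro i
        rw [List.count_append, List.count_cons, count_lst, count_lst, count_lst]
        by_cases hi : i = M.reg p
        · subst hi
          have := M.hp' p
          simp only [Pi.add_apply, this, beq_self_eq_true, if_true]
          omega
        · have h1 := M.hp p i hi
          have h2 := hs i
          have h3 : (M.reg p == i) = false := by
            rw [beq_eq_false_iff_ne]; exact fun h => hi h.symm
          simp only [Pi.add_apply, h3]
          simp only [Bool.false_eq_true, if_false, add_zero]
          omega
      have hperm2 : (lst c).Perm (M.reg p :: (lst c).erase (M.reg p)) := by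
        apply List.perm_cons_erase
        rw [← List.count_pos_iff, count_lst]
        omega
      rw [wd_perm x R.xx hperm2 (E (some p)), wd_cons, R.pos, ← wd_append]
      congr 1
      apply wd_perm x R.xx
      -- lst (c + vec) ~ lst vec ++ (lst c).erase reg
      rw [List.perm_iff_count]
      intro i
      have h4 := hperm.count_eq i
      have h5 := hperm2.count_eq i
      simp only [List.count_append, List.count_cons] at h4 h5 ⊢
      omega
    · have hc0 : c (M.reg p) = 0 := le_antisymm (not_lt.1 hp) (hs _)
      have hst : M.st (some p, c) = (M.nxt p false, c + M.vec p false) := by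
        simp [DM.st, DM.br, hp]
      rw [hst]
      unfold cf
      simp only
      rw [R.zero p, wd_add, add_mul, ← wd_append]
      have hz : wd x (lst c) (A p * z (M.reg p)) * B = 0 := by
        rw [wd_z, mul_assoc, R.zB, mul_zero]
        intro i hi
        apply R.zx
        rintro rfl
        rw [← List.count_pos_iff, count_lst, hc0] at hi
        simp at hi
      rw [hz, add_zero]
      congr 1
      apply wd_perm x R.xx
      rw [List.perm_iff_count]
      intro i
      rw [List.count_append, count_lst, count_lst, count_lst, Pi.add_apply]
      have h1 := M.hz p i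
      have h2 := hs i
      omega

omit [Fintype J] [DecidableEq J] in
theorem iter_nonneg (s : Option P × (J → ℤ)) (hs : ∀ j, 0 ≤ s.2 j) (k : ℕ) :
    ∀ j, 0 ≤ (M.st^[k] s).2 j := by
  induction k generalizing s with
  | zero => exact hs
  | succ k ih =>
    rw [Function.iterate_succ_apply]
    exact ih _ (M.st_nonneg s hs)

theorem cf_iter (R : Rels M E A x z B) (s : Option P × (J → ℤ)) (hs : ∀ j, 0 ≤ s.2 j) (k : ℕ) :
    cf E x B (M.st^[k] s) = cf E x B s := by
  induction k with
  | zero => rfl
  | succ k ih =>
    rw [Function.iterate_succ_apply', cf_step R _ (iter_nonneg s hs k), ih]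

theorem cf_halts (R : Rels M E A x z B) (s : Option P × (J → ℤ)) (hs : ∀ j, 0 ≤ s.2 j)
    (h : M.Halts s) : cf E x B s = E none * B := by
  obtain ⟨k, hk⟩ := h
  rw [← cf_iter R s hs k]
  unfold cf
  rw [hk, wd_fix x _ R.halt]

end Pool.Agent.N575.WK
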