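import Pool.Agent.N575.WK.MatId

set_option autoImplicit false

/-! A model of the presentation inside the algebra of `3 × 3` matrices over a commutative
algebra, up to a linear functional. -/

namespace Pool.Agent.N575.WK

open Pool.Agent.Helper948.Erode MvPolynomial

section soundness

variable {K X A : Type} [Field K] [NonUnitalRing A] [Module K A] [IsScalarTower K A A]
  [SMulCommClass K A A]

/-- soundness up to a functional -/
theorem Van.sound_mod {S : Set (Poly K ℕ)} {R : Set (Poly K X)} {f : Poly K X} (h : Van S R f)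
    (hS : Sat K A S) (a : X → A) (B : NonUnitalSubalgebra K A) (hB : ∀ x, a x ∈ B) (ψ : A →ₗ[K] K)
    (h1 : ∀ r ∈ R, ψ (ev a r) = 0) (h2 : ∀ r ∈ R, ∀ p ∈ B, ψ (p * ev a r) = 0)
    (h3 : ∀ r ∈ R, ∀ q ∈ B, ψ (ev a r * q) = 0)
    (h4 : ∀ r ∈ R, ∀ p ∈ B, ∀ q ∈ B, ψ (p * ev a r * q) = 0) : ψ (ev a f) = 0 := by
  have hev : ∀ g : Poly K X, ev a g ∈ B := by
    intro g
    let a' : X → B := fun x => ⟨a x, hB x⟩
    let ι : B →ₙₐ[K] A := 
      { toFun := Subtype.val
        map_smul' := fun _ _ => rfl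
        map_zero' := rfl
        map_add' := fun _ _ => rfl
        map_mul' := fun _ _ => rfl }
    have : ev a g = ι (ev a' g) := (map_ev ι a' g).symm
    rw [this]
    exact (ev a' g).2
  have key : ψ (ev a f) = 0 ∧ (∀ p ∈ B, ψ (p * ev a f) = 0) ∧ (∀ q ∈ B, ψ (ev a f * q) = 0) ∧
      (∀ p ∈ B, ∀ q ∈ B, ψ (p * ev a f * q) = 0) := by
    induction h with
    | rel f hf => exact ⟨h1 f hf, h2 f hf, h3 f hf, h4 f hf⟩
    | ident f g hf =>
      have : ev a (ev g f) = 0 := by rw [ev_ev]; exact hS f hf _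
      rw [this]
      refine ⟨map_zero _, fun p _ => ?_, fun q _ => ?_, fun p _ q _ => ?_⟩
      · rw [mul_zero, map_zero]
      · rw [zero_mul, map_zero]
      · rw [mul_zero, zero_mul, map_zero]
    | zero =>
      rw [map_zero]
      refine ⟨map_zero _, fun p _ => ?_, fun q _ => ?_, fun p _ q _ => ?_⟩
      · rw [mul_zero, map_zero]
      · rw [zero_mul, map_zero]
      · rw [mul_zero, zero_mul, map_zero]
    | add f g _ _ ihf ihg =>
      obtain ⟨f1, f2, f3, f4⟩ := ihf
      obtain ⟨g1, g2, g3, g4⟩ := ihg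
      rw [map_add]
      refine ⟨?_, fun p hp => ?_, fun q hq => ?_, fun p hp q hq => ?_⟩
      · rw [map_add, f1, g1, add_zero]
      · rw [mul_add, map_add, f2 p hp, g2 p hp, add_zero]
      · rw [add_mul, map_add, f3 q hq, g3 q hq, add_zero]
      · rw [mul_add, add_mul, map_add, f4 p hp q hq, g4 p hp q hq, add_zero]
    | smul c f _ ih =>
      obtain ⟨f1, f2, f3, f4⟩ := ih
      rw [map_smul]
      refine ⟨?_, fun p hp => ?_, fun q hq => ?_, fun p hp q hq => ?_⟩
      · rw [map_smul, f1, smul_zero]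
      · rw [mul_smul_comm, map_smul, f2 p hp, smul_zero]
      · rw [smul_mul_assoc, map_smul, f3 q hq, smul_zero]
      · rw [mul_smul_comm, smul_mul_assoc, map_smul, f4 p hp q hq, smul_zero]
    | mul_left g f _ ih =>
      obtain ⟨f1, f2, f3, f4⟩ := ih
      rw [map_mul]
      have hg := hev g
      refine ⟨f2 _ hg, fun p hp => ?_, fun q hq => f4 _ hg q hq, fun p hp q hq => ?_⟩
      · rw [← mul_assoc]; exact f2 _ (mul_mem hp hg)
      · rw [← mul_assoc]; exact f4 _ (mul_mem hp hg) q hq
    | mul_right f g _ ih =>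
      obtain ⟨f1, f2, f3, f4⟩ := ih
      rw [map_mul]
      have hg := hev g
      refine ⟨f3 _ hg, fun p hp => ?_, fun q hq => ?_, fun p hp q hq => ?_⟩
      · rw [← mul_assoc]; exact f4 p hp _ hg
      · rw [mul_assoc]; exact f3 _ (mul_mem hg hq)
      · rw [← mul_assoc, mul_assoc]; exact f4 p hp _ (mul_mem hg hq)
  exact key.1

end soundness

noncomputable section ring

variable (K : Type) [Field K] (J : Type)

/-- the coefficient ring -/
abbrev Cc : Type := J → DualNumber (MvPolynomial J K)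

/-- the functionals on the coefficient ring -/
def Yy : Type := Cc K J →ₗ[K] K

instance : AddCommGroup (Yy K J) := inferInstanceAs (AddCommGroup (Cc K J →ₗ[K] K))
instance : Module K (Yy K J) := inferInstanceAs (Module K (Cc K J →ₗ[K] K))

variable {K J}

/-- the linear map -/
def Yy.lin (θ : Yy K J) : Cc K J →ₗ[K] K := θ

/-- evaluation of a functional -/
def Yy.at (θ : Yy K J) (c : Cc K J) : K := θ.lin c

theorem Yy.ext' {θ θ' : Yy K J} (h : ∀ c, θ.at c = θ'.at c) : θ = θ' := LinearMap.ext h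

instance : SMul (Cc K J) (Yy K J) where
  smul c θ := (θ.lin ∘ₗ LinearMap.mulLeft K c : Cc K J →ₗ[K] K)

theorem smul_at (c d : Cc K J) (θ : Yy K J) : (c • θ).at d = θ.at (c * d) := rfl
theorem add_at (θ θ' : Yy K J) (d : Cc K J) : (θ + θ').at d = θ.at d + θ'.at d := rfl
theorem sub_at (θ θ' : Yy K J) (d : Cc K J) : (θ - θ').at d = θ.at d - θ'.at d := rfl
theorem neg_at (θ : Yy K J) (d : Cc K J) : (-θ).at d = -θ.at d := rfl
theorem zero_at (d : Cc K J) : (0 : Yy K J).at d = 0 := rfl
theorem ksmul_at (k : K) (θ : Yy K J) (d : Cc K J) : (k • θ).at d = k * θ.at d := rfl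
theorem at_add (θ : Yy K J) (c d : Cc K J) : θ.at (c + d) = θ.at c + θ.at d := map_add θ.lin _ _
theorem at_zero (θ : Yy K J) : θ.at 0 = 0 := map_zero θ.lin
theorem at_smul (θ : Yy K J) (k : K) (c : Cc K J) : θ.at (k • c) = k * θ.at c :=
  map_smul θ.lin _ _

instance : Module (Cc K J) (Yy K J) where
  one_smul θ := Yy.ext' fun d => by rw [smul_at, one_mul]
  mul_smul a b θ := Yy.ext' fun d => by
    rw [smul_at, smul_at, smul_at]
    congr 1
    ring
  smul_zero a := Yy.ext' fun d => by rw [smul_at, zero_at, zero_at]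
  smul_add a x y := Yy.ext' fun d => by rw [smul_at, add_at, add_at, smul_at, smul_at]
  add_smul a b x := Yy.ext' fun d => by rw [smul_at, add_at, smul_at, smul_at, add_mul, at_add]
  zero_smul x := Yy.ext' fun d => by rw [smul_at, zero_mul, at_zero, zero_at]

instance : SMul (Cc K J)ᵐᵒᵖ (Yy K J) where
  smul c θ := c.unop • θ

theorem op_smul_def (c : (Cc K J)ᵐᵒᵖ) (θ : Yy K J) : c • θ = c.unop • θ := rfl

instance : Module (Cc K J)ᵐᵒᵖ (Yy K J) where
  one_smul θ := by rw [op_smul_def]; exact one_smul _ _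
  mul_smul a b θ := by
    rw [op_smul_def, op_smul_def, op_smul_def, MulOpposite.unop_mul, mul_comm, mul_smul]
  smul_zero a := by rw [op_smul_def, smul_zero]
  smul_add a x y := by rw [op_smul_def, op_smul_def, op_smul_def, smul_add]
  add_smul a b x := by rw [op_smul_def, op_smul_def, op_smul_def, MulOpposite.unop_add, add_smul]
  zero_smul x := by rw [op_smul_def]; exact zero_smul _ _

instance : IsCentralScalar (Cc K J) (Yy K J) where
  op_smul_eq_smul _ _ := rfl

instance : IsScalarTower K (Cc K J) (Yy K J) where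
  smul_assoc k c θ := Yy.ext' fun d => by
    rw [smul_at, ksmul_at, smul_at, smul_mul_assoc, at_smul]

instance : SMulCommClass (Cc K J) (Cc K J)ᵐᵒᵖ (Yy K J) where
  smul_comm a b θ := by rw [op_smul_def, op_smul_def, smul_smul, smul_smul, mul_comm]

instance : IsScalarTower K (Cc K J)ᵐᵒᵖ (Yy K J) where
  smul_assoc k c θ := by
    rw [op_smul_def, op_smul_def, MulOpposite.unop_smul, smul_assoc]

variable (K J)

/-- the commutative algebra `C ⊕ C*` -/
abbrev Cd : Type := TrivSqZeroExt (Cc K J) (Yy K J)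

variable {K J}

/-- reduction of the coefficients -/
def red (j : J) : Cd K J →+* MvPolynomial J K where
  toFun c := (c.fst j).fst
  map_one' := rfl
  map_mul' a b := by
    rw [TrivSqZeroExt.fst_mul, Pi.mul_apply, TrivSqZeroExt.fst_mul]
  map_zero' := rfl
  map_add' a b := rfl

theorem red_def (j : J) (c : Cd K J) : red j c = (c.fst j).fst := rfl

theorem red_smul (j : J) (k : K) (c : Cd K J) : red j (k • c) = k • red j c := rfl

variable (K J)

/-- the algebra of matrices -/
abbrev M3 : Type := Matrix (Fin 3) (Fin 3) (Cd K J)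

variable {K J}

/-- the shape of the matrices in the model -/
structure Good (T : M3 K J) (h g : MvPolynomial J K) : Prop where
  e00 : (T 0 0).fst = 0
  e01 : (T 0 1).fst = 0
  e02 : (T 0 2).fst = 0
  e11 : ∀ j, red j (T 1 1) = h
  e22 : ∀ j, red j (T 2 2) = h
  e12 : ∀ j, red j (T 1 2) = pderiv j h
  e21 : ∀ j, red j (T 2 1) = 0
  e10 : ∀ j, red j (T 1 0) = pderiv j g
  e20 : ∀ j, red j (T 2 0) = g

theorem red_of_fst (j : J) {c : Cd K J} (h : c.fst = 0) : red j c = 0 := by
  rw [red_def, h]; rfl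

theorem Good.zero : Good (0 : M3 K J) 0 0 := by
  constructor <;> intros <;> simp

theorem Good.add {T T' : M3 K J} {h g h' g' : MvPolynomial J K} (H : Good T h g)
    (H' : Good T' h' g') : Good (T + T') (h + h') (g + g') := by
  constructor
  · rw [Matrix.add_apply, TrivSqZeroExt.fst_add, H.e00, H'.e00, add_zero]
  · rw [Matrix.add_apply, TrivSqZeroExt.fst_add, H.e01, H'.e01, add_zero]
  · rw [Matrix.add_apply, TrivSqZeroExt.fst_add, H.e02, H'.e02, add_zero]
  · intro j; rw [Matrix.add_apply, map_add, H.e11, H'.e11]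
  · intro j; rw [Matrix.add_apply, map_add, H.e22, H'.e22]
  · intro j; rw [Matrix.add_apply, map_add, H.e12, H'.e12, map_add]
  · intro j; rw [Matrix.add_apply, map_add, H.e21, H'.e21, add_zero]
  · intro j; rw [Matrix.add_apply, map_add, H.e10, H'.e10, map_add]
  · intro j; rw [Matrix.add_apply, map_add, H.e20, H'.e20]

theorem Good.smul {T : M3 K J} {h g : MvPolynomial J K} (k : K) (H : Good T h g) :
    Good (k • T) (k • h) (k • g) := by
  constructor
  · rw [Matrix.smul_apply, TrivSqZeroExt.fst_smul, H.e00, smul_zero]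
  · rw [Matrix.smul_apply, TrivSqZeroExt.fst_smul, H.e01, smul_zero]
  · rw [Matrix.smul_apply, TrivSqZeroExt.fst_smul, H.e02, smul_zero]
  · intro j; rw [Matrix.smul_apply, red_smul, H.e11]
  · intro j; rw [Matrix.smul_apply, red_smul, H.e22]
  · intro j; rw [Matrix.smul_apply, red_smul, H.e12, Derivation.map_smul]
  · intro j; rw [Matrix.smul_apply, red_smul, H.e21, smul_zero]
  · intro j; rw [Matrix.smul_apply, red_smul, H.e10, Derivation.map_smul]
  · intro j; rw [Matrix.smul_apply, red_smul, H.e20]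

theorem Good.mul {T T' : M3 K J} {h g h' g' : MvPolynomial J K} (H : Good T h g)
    (H' : Good T' h' g') : Good (T * T') (h * h') (h * g') := by
  constructor
  · simp only [Matrix.mul_apply, Fin.sum_univ_three, TrivSqZeroExt.fst_add, TrivSqZeroExt.fst_mul,
      H.e00, H.e01, H.e02, zero_mul, add_zero]
  · simp only [Matrix.mul_apply, Fin.sum_univ_three, TrivSqZeroExt.fst_add, TrivSqZeroExt.fst_mul,
      H.e00, H.e01, H.e02, zero_mul, add_zero]
  · simp only [Matrix.mul_apply, Fin.sum_univ_three, TrivSqZeroExt.fst_add, TrivSqZeroExt.fst_mul,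
      H.e00, H.e01, H.e02, zero_mul, add_zero]
  · intro j
    simp only [Matrix.mul_apply, Fin.sum_univ_three, map_add, map_mul, H.e10, H.e11, H.e12,
      H'.e11, H'.e21, red_of_fst j H'.e01]
    ring
  · intro j
    simp only [Matrix.mul_apply, Fin.sum_univ_three, map_add, map_mul, H.e20, H.e21, H.e22,
      H'.e12, H'.e22, red_of_fst j H'.e02]
    ring
  · intro j
    simp only [Matrix.mul_apply, Fin.sum_univ_three, map_add, map_mul, H.e10, H.e11, H.e12,
      H'.e12, H'.e22, red_of_fst j H'.e02, Derivation.leibniz, smul_eq_mul]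
    ring
  · intro j
    simp only [Matrix.mul_apply, Fin.sum_univ_three, map_add, map_mul, H.e20, H.e21, H.e22,
      H'.e11, H'.e21, red_of_fst j H'.e01]
    ring
  · intro j
    simp only [Matrix.mul_apply, Fin.sum_univ_three, map_add, map_mul, H.e10, H.e11, H.e12,
      H'.e10, H'.e20, red_of_fst j H'.e00, Derivation.leibniz, smul_eq_mul]
    ring
  · intro j
    simp only [Matrix.mul_apply, Fin.sum_univ_three, map_add, map_mul, H.e20, H.e21, H.e22,
      H'.e10, H'.e20, red_of_fst j H'.e00]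
    ring

variable (K J)

/-- the subalgebra of good matrices -/
def GoodAlg : NonUnitalSubalgebra K (M3 K J) where
  carrier := {T | ∃ h g, Good T h g}
  zero_mem' := ⟨0, 0, Good.zero⟩
  add_mem' := by
    rintro T T' ⟨h, g, H⟩ ⟨h', g', H'⟩
    exact ⟨_, _, H.add H'⟩
  mul_mem' := by
    rintro T T' ⟨h, g, H⟩ ⟨h', g', H'⟩
    exact ⟨_, _, H.mul H'⟩
  smul_mem' := by
    rintro c T ⟨h, g, H⟩
    exact ⟨_, _, H.smul c⟩

/-- the functional -/
def psi : M3 K J →ₗ[K] K where
  toFun T := (T 0 0).snd.at 1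
  map_add' _ _ := rfl
  map_smul' _ _ := rfl

end ring

end Pool.Agent.N575.WK
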