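import Pool.Agent.N575.WK.Pres

set_option autoImplicit false

/-! Identities of matrix algebras extend to commutative coefficient algebras. -/

namespace Pool.Agent.N575.WK

/-- The polynomial identities of the algebra of `n × n` matrices over `K`. -/
def MatIdent (K : Type) [Field K] (n : ℕ) : Set (Poly K ℕ) :=
  {f | ∀ a : ℕ → Matrix (Fin n) (Fin n) K, ev a f = 0}

variable {K : Type} [Field K]

theorem map_ev {X A B : Type} [NonUnitalRing A] [Module K A] [IsScalarTower K A A]
    [SMulCommClass K A A] [NonUnitalRing B] [Module K B] [IsScalarTower K B B]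
    [SMulCommClass K B B] (φ : A →ₙₐ[K] B) (a : X → A) (f : Poly K X) :
    φ (ev a f) = ev (fun i => φ (a i)) f := by
  have : φ.comp (ev a) = ev (K := K) (fun i => φ (a i)) := by
    apply hom_ext
    intro x
    rw [NonUnitalAlgHom.comp_apply, ev_var, ev_var]
  exact DFunLike.congr_fun this f

/-- entrywise application of a homomorphism -/
noncomputable def mapM {G C : Type} [CommRing G] [Algebra K G] [CommRing C] [Algebra K C] (n : ℕ)
    (φ : G →ₐ[K] C) : Matrix (Fin n) (Fin n) G →ₙₐ[K] Matrix (Fin n) (Fin n) C where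
  toFun M := M.map φ
  map_smul' c M := by ext p q; simp
  map_zero' := by ext p q; simp
  map_add' M N := by ext p q; simp
  map_mul' M N := by ext p q; simp [Matrix.mul_apply]

theorem matIdent_comm [Infinite K] {n : ℕ} {f : Poly K ℕ} (hf : f ∈ MatIdent K n) {C : Type}
    [CommRing C] [Algebra K C] (b : ℕ → Matrix (Fin n) (Fin n) C) : ev b f = 0 := by
  let G := MvPolynomial (ℕ × Fin n × Fin n) K
  let x : ℕ → Matrix (Fin n) (Fin n) G := fun i => Matrix.of fun p q => MvPolynomial.X (i, p, q)
  have h0 : ev x f = 0 := by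
    ext1 p q
    apply MvPolynomial.funext
    intro t
    have h1 := map_ev (mapM n (MvPolynomial.aeval t : G →ₐ[K] K)) x f
    rw [hf] at h1
    have h2 : MvPolynomial.aeval t ((ev x f : Matrix (Fin n) (Fin n) G) p q) = 0 :=
      congrFun (congrFun h1 p) q
    have h3 : ∀ g : G, MvPolynomial.eval t g = MvPolynomial.aeval t g := by
      intro g
      rw [← MvPolynomial.coe_aeval_eq_eval]
      rfl
    exact ((h3 _).trans h2).trans (map_zero (MvPolynomial.eval t)).symm
  have h1 := map_ev (mapM n (MvPolynomial.aeval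
    (fun t : ℕ × Fin n × Fin n => b t.1 t.2.1 t.2.2) : G →ₐ[K] C)) x f
  rw [h0, map_zero] at h1
  have h2 : (fun i => mapM n (MvPolynomial.aeval
      (fun t : ℕ × Fin n × Fin n => b t.1 t.2.1 t.2.2) : G →ₐ[K] C) (x i)) = b := by
    funext i
    ext p q
    change MvPolynomial.aeval (fun t : ℕ × Fin n × Fin n => b t.1 t.2.1 t.2.2)
      (MvPolynomial.X (i, p, q)) = b i p q
    rw [MvPolynomial.aeval_X]
  rw [h2] at h1
  exact h1.symm

/-- the corner embedding -/
noncomputable def corner {C : Type} [CommRing C] [Algebra K C] (m k : ℕ) :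
    Matrix (Fin m) (Fin m) C →ₙₐ[K] Matrix (Fin (m + k)) (Fin (m + k)) C where
  toFun M := Matrix.reindex finSumFinEquiv finSumFinEquiv
    (Matrix.fromBlocks M 0 0 (0 : Matrix (Fin k) (Fin k) C))
  map_smul' c M := by
    have : (Matrix.fromBlocks (c • M) 0 0 (0 : Matrix (Fin k) (Fin k) C)) =
      c • Matrix.fromBlocks M 0 0 (0 : Matrix (Fin k) (Fin k) C) := by
      rw [Matrix.fromBlocks_smul]; simp
    rw [this]; rfl
  map_zero' := by
    rw [Matrix.fromBlocks_zero]; rfl
  map_add' M N := by
    have : (Matrix.fromBlocks (M + N) 0 0 (0 : Matrix (Fin k) (Fin k) C)) =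
      Matrix.fromBlocks M 0 0 (0 : Matrix (Fin k) (Fin k) C) + Matrix.fromBlocks N 0 0 0 := by
      rw [Matrix.fromBlocks_add]; simp
    rw [this]; rfl
  map_mul' M N := by
    have : (Matrix.fromBlocks (M * N) 0 0 (0 : Matrix (Fin k) (Fin k) C)) =
      Matrix.fromBlocks M 0 0 (0 : Matrix (Fin k) (Fin k) C) * Matrix.fromBlocks N 0 0 0 := by
      rw [Matrix.fromBlocks_multiply]; simp
    rw [this, Matrix.reindex_apply, Matrix.reindex_apply, Matrix.reindex_apply,
      Matrix.submatrix_mul_equiv]

theorem corner_injective {C : Type} [CommRing C] [Algebra K C] (m k : ℕ) :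
    Function.Injective (corner (K := K) (C := C) m k) := by
  intro M N h
  have h1 : Matrix.fromBlocks M 0 0 (0 : Matrix (Fin k) (Fin k) C) =
      Matrix.fromBlocks N 0 0 0 := (Matrix.reindex finSumFinEquiv finSumFinEquiv).injective h
  exact (Matrix.fromBlocks_inj.1 h1).1

theorem matIdent_le [Infinite K] {m n : ℕ} (hmn : m ≤ n) {f : Poly K ℕ} (hf : f ∈ MatIdent K n)
    {C : Type} [CommRing C] [Algebra K C] (b : ℕ → Matrix (Fin m) (Fin m) C) : ev b f = 0 := by
  obtain ⟨k, rfl⟩ := Nat.exists_eq_add_of_le hmn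
  apply corner_injective (K := K) m k
  rw [map_ev, map_zero]
  exact matIdent_comm hf _

end Pool.Agent.N575.WK
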