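import Pool.Agent.N575.WK.Defs
import Pool.Agent.N575.WK.Back

set_option autoImplicit false

/-! The presentation attached to a machine. -/

namespace Pool.Agent.N575.WK

open Pool.Agent.Helper948.Erode

section ev

variable {K X : Type} [Field K]
variable {A : Type} [NonUnitalRing A] [Module K A] [IsScalarTower K A A] [SMulCommClass K A A]

theorem ev_mono (a : X → A) (x : X) (l : List X) : ev a (mono x l : Poly K X) = wd a l (a x) := by
  unfold ev mono
  rw [MonoidAlgebra.liftMagma_apply_apply]
  have : (FreeSemigroup.lift a) (⟨x, l⟩ : FreeSemigroup X) = wd a l (a x) := rfl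
  simp [this]

theorem ev_var (a : X → A) (x : X) : ev a (var x : Poly K X) = a x := ev_mono a x []

theorem mono_mul_var (x y : X) (l : List X) :
    (mono x l : Poly K X) * var y = mono x (l ++ [y]) := by
  unfold mono var mono
  rw [MonoidAlgebra.single_mul_single, one_mul]
  rfl

theorem wd_var {L : Type} (e : L → X) (l : List L) : ∀ (x : X) (l0 : List X),
    wd (fun j => (var (e j) : Poly K X)) l (mono x l0) = mono x (l0 ++ l.map e) := by
  induction l with
  | nil => intro x l0; simp [wd_nil]
  | cons j l ih =>
    intro x l0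
    rw [wd_cons, mono_mul_var, ih]
    simp

theorem ev_wd {L : Type} (a : X → A) (y : L → Poly K X) (l : List L) : ∀ q : Poly K X,
    ev a (wd y l q) = wd (fun j => ev a (y j)) l (ev a q) := by
  induction l with
  | nil => intro q; rfl
  | cons j l ih => intro q; rw [wd_cons, wd_cons, ih, map_mul]

/-- the underlying ring homomorphism -/
noncomputable def toRH (f : Poly K X →ₙₐ[K] A) : Poly K X →ₙ+* A where
  toFun := f
  map_zero' := map_zero f
  map_add' := map_add f
  map_mul' := map_mul f

omit [IsScalarTower K A A] [SMulCommClass K A A] in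
/-- homomorphisms agreeing on the variables agree -/
theorem hom_ext {f g : Poly K X →ₙₐ[K] A} (h : ∀ x, f (var x) = g (var x)) : f = g := by
  apply MonoidAlgebra.nonUnitalAlgHom_ext
  rintro ⟨x, l⟩
  change f (mono x l) = g (mono x l)
  induction l using List.reverseRecOn with
  | nil => exact h x
  | append_singleton l y ih => rw [← mono_mul_var, map_mul, map_mul, ih, h]

theorem ev_ev {Y : Type} (a : X → A) (g : Y → Poly K X) (f : Poly K Y) :
    ev a (ev g f) = ev (fun i => ev a (g i)) f := by
  have : (ev a : Poly K X →ₙₐ[K] A).comp (ev g) = ev (fun i => ev a (g i)) := by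
    apply hom_ext
    intro x
    rw [NonUnitalAlgHom.comp_apply, ev_var, ev_var]
  exact DFunLike.congr_fun this f

/-- soundness -/
theorem Van.sound {S : Set (Poly K ℕ)} {R : Set (Poly K X)} {f : Poly K X} (h : Van S R f)
    (hS : Sat K A S) (a : X → A) (ha : ∀ r ∈ R, ev a r = 0) : ev a f = 0 := by
  induction h with
  | rel f hf => exact ha f hf
  | ident f g hf => rw [ev_ev]; exact hS f hf _
  | zero => exact map_zero _
  | add f g _ _ ihf ihg => rw [map_add, ihf, ihg, add_zero]
  | smul c f _ ih => rw [map_smul, ih, smul_zero]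
  | mul_left g f _ ih => rw [map_mul, ih, mul_zero]
  | mul_right f g _ ih => rw [map_mul, ih, zero_mul]

theorem Van.neg {S : Set (Poly K ℕ)} {R : Set (Poly K X)} {f : Poly K X} (h : Van S R f) :
    Van S R (-f) := by
  have := Van.smul (-1) f h
  rwa [neg_smul, one_smul] at this

/-- The congruence of the relations. -/
def vcon (S : Set (Poly K ℕ)) (R : Set (Poly K X)) : RingCon (Poly K X) where
  r f g := Van S R (f - g)
  iseqv := ⟨fun f => by rw [sub_self]; exact Van.zero, fun h => by
    have := h.neg; rwa [neg_sub] at this, fun h h' => by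
    have := Van.add _ _ h h'; rwa [sub_add_sub_cancel] at this⟩
  add' := fun {a b c d} h h' => by
    have := Van.add _ _ h h'
    rwa [show a - b + (c - d) = a + c - (b + d) by abel] at this
  mul' := fun {a b c d} h h' => by
    have h1 := Van.mul_right _ c h
    have h2 := Van.mul_left b _ h'
    have := Van.add _ _ h1 h2
    rwa [show (a - b) * c + b * (c - d) = a * c - b * d by
      rw [sub_mul, mul_sub]; abel] at this

theorem vcon_iff (S : Set (Poly K ℕ)) (R : Set (Poly K X)) (f g : Poly K X) :
    ((f : (vcon S R).Quotient) = g) ↔ Van S R (f - g) := (vcon S R).eq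

end ev

section pres

variable {P J : Type}

/-- the letters -/
abbrev Lt (P J : Type) : Type := Option P ⊕ P ⊕ J ⊕ J ⊕ Unit

variable {X : Type} (e : Lt P J → X)

/-- the letters in an algebra -/
def lE {Q : Type} (y : X → Q) (o : Option P) : Q := y (e (Sum.inl o))
def lA {Q : Type} (y : X → Q) (p : P) : Q := y (e (Sum.inr (Sum.inl p)))
def lx {Q : Type} (y : X → Q) (j : J) : Q := y (e (Sum.inr (Sum.inr (Sum.inl j))))
def lz {Q : Type} (y : X → Q) (j : J) : Q := y (e (Sum.inr (Sum.inr (Sum.inr (Sum.inl j)))))
def lB {Q : Type} (y : X → Q) : Q := y (e (Sum.inr (Sum.inr (Sum.inr (Sum.inr ())))))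

variable [Fintype J] [DecidableEq J] (M : DM P J) (K : Type) [Field K]

/-- the index type of the relations -/
abbrev RIx (P J : Type) : Type := (J × J) ⊕ (J × J) ⊕ J ⊕ P ⊕ P ⊕ J

/-- the relations -/
noncomputable def relOf : RIx P J → Poly K X
  | Sum.inl (i, j) => lx e var i * lx e var j - lx e var j * lx e var i
  | Sum.inr (Sum.inl (i, j)) =>
      if i = j then 0 else lz e var j * lx e var i - lx e var i * lz e var j
  | Sum.inr (Sum.inr (Sum.inl j)) => lz e var j * lB e var
  | Sum.inr (Sum.inr (Sum.inr (Sum.inl p))) =>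
      lE e var (some p) * lx e var (M.reg p) -
        wd (lx e var) (lst (M.vec p true)) (lE e var (M.nxt p true))
  | Sum.inr (Sum.inr (Sum.inr (Sum.inr (Sum.inl p)))) =>
      lE e var (some p) - (wd (lx e var) (lst (M.vec p false)) (lE e var (M.nxt p false)) +
        lA e var p * lz e var (M.reg p))
  | Sum.inr (Sum.inr (Sum.inr (Sum.inr (Sum.inr j)))) =>
      lE e var none * lx e var j - lE e var none

/-- the set of relations -/
noncomputable def relSet : Set (Poly K X) := Set.range (relOf e M K)

theorem relSet_finite [Finite P] : (relSet e M K).Finite := Set.finite_range _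

/-- the configuration polynomials -/
noncomputable def cfP (s : Option P × (J → ℤ)) : Poly K X := cf (lE e var) (lx e var) (lB e var) s

/-- A ring homomorphism killing the relations provides letters satisfying them. -/
theorem rels_of_hom {Q : Type} [NonUnitalRing Q] (f : Poly K X →ₙ+* Q)
    (hf : ∀ r, f (relOf e M K r) = 0) :
    Rels M (lE e fun i => f (var i)) (lA e fun i => f (var i)) (lx e fun i => f (var i))
      (lz e fun i => f (var i)) (lB e fun i => f (var i)) := by
  have hwd : ∀ (l : List J) (q : Poly K X),
      f (wd (lx e var) l q) = wd (lx e fun i => f (var i)) l (f q) := by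
    intro l
    induction l with
    | nil => intro q; rfl
    | cons j l ih => intro q; rw [wd_cons, wd_cons, ih, map_mul]; rfl
  constructor
  · intro i j
    have := hf (Sum.inl (i, j))
    simp only [relOf, map_sub, map_mul] at this
    exact sub_eq_zero.1 this
  · intro i j hij
    have := hf (Sum.inr (Sum.inl (i, j)))
    simp only [relOf, if_neg hij, map_sub, map_mul] at this
    exact sub_eq_zero.1 this
  · intro j
    have := hf (Sum.inr (Sum.inr (Sum.inl j)))
    simp only [relOf, map_mul] at this
    exact this
  · intro p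
    have := hf (Sum.inr (Sum.inr (Sum.inr (Sum.inl p))))
    simp only [relOf, map_sub, map_mul, hwd] at this
    exact sub_eq_zero.1 this
  · intro p
    have := hf (Sum.inr (Sum.inr (Sum.inr (Sum.inr (Sum.inl p)))))
    simp only [relOf, map_sub, map_add, map_mul, hwd] at this
    exact sub_eq_zero.1 this
  · intro j
    have := hf (Sum.inr (Sum.inr (Sum.inr (Sum.inr (Sum.inr j)))))
    simp only [relOf, map_sub, map_mul] at this
    exact sub_eq_zero.1 this

omit [DecidableEq J] in
theorem hom_cf {Q : Type} [NonUnitalRing Q] (f : Poly K X →ₙ+* Q) (s : Option P × (J → ℤ)) :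
    f (cfP e K s) = cf (lE e fun i => f (var i)) (lx e fun i => f (var i))
      (lB e fun i => f (var i)) s := by
  have hwd : ∀ (l : List J) (q : Poly K X),
      f (wd (lx e var) l q) = wd (lx e fun i => f (var i)) l (f q) := by
    intro l
    induction l with
    | nil => intro q; rfl
    | cons j l ih => intro q; rw [wd_cons, wd_cons, ih, map_mul]; rfl
  unfold cfP cf
  rw [map_mul, hwd]
  rfl

/-- In every ring in which the relations hold, a halting configuration has the final value. -/
theorem fwd {Q : Type} [NonUnitalRing Q] (f : Poly K X →ₙ+* Q) (hf : ∀ r, f (relOf e M K r) = 0)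
    (s : Option P × (J → ℤ)) (hs : ∀ j, 0 ≤ s.2 j) (h : M.Halts s) :
    f (cfP e K s - lE e var none * lB e var) = 0 := by
  rw [map_sub, hom_cf, cf_halts (rels_of_hom e M K f hf) s hs h, map_mul]
  exact sub_self _

theorem fwd_van (S : Set (Poly K ℕ)) (s : Option P × (J → ℤ)) (hs : ∀ j, 0 ≤ s.2 j)
    (h : M.Halts s) : Van S (relSet e M K) (cfP e K s - lE e var none * lB e var) := by
  let Q := (vcon S (relSet e M K)).Quotient
  let f : Poly K X →ₙ+* Q :=
    { toFun := fun p => (p : Q)
      map_zero' := rfl
      map_add' := fun _ _ => rfl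
      map_mul' := fun _ _ => rfl }
  have h1 := fwd e M K f (fun r => (vcon_iff S _ _ 0).2 (by
    rw [sub_zero]; exact Van.rel _ ⟨r, rfl⟩)) s hs h
  have h2 := (vcon_iff S (relSet e M K) _ 0).1 h1
  rwa [sub_zero] at h2

variable {K} [CharZero K] in
/-- The model. -/
theorem exists_model (he : Function.Injective e) :
    ∃ a : X → Mod K J, (∀ r ∈ relSet e M K, ev a r = 0) ∧
      ∀ s : Option P × (J → ℤ), (∀ j, 0 ≤ s.2 j) →
        ev a (cfP e K s - lE e var none * lB e var) = 0 → M.Halts s := by
  classical
  let b : Lt P J → Mod K J := fun l => match l with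
    | Sum.inl o => Em M o
    | Sum.inr (Sum.inl p) => Am M p
    | Sum.inr (Sum.inr (Sum.inl j)) => xm j
    | Sum.inr (Sum.inr (Sum.inr (Sum.inl j))) => zm j
    | Sum.inr (Sum.inr (Sum.inr (Sum.inr _))) => Bm K J
  let a : X → Mod K J := Function.extend e b 0
  have hab : ∀ l, a (e l) = b l := fun l => he.extend_apply b 0 l
  have hE : (lE e fun i => ev a (var i : Poly K X)) = Em M := by
    funext o; exact (ev_var _ _).trans (hab _)
  have hA : (lA e fun i => ev a (var i : Poly K X)) = Am M := by
    funext o; exact (ev_var _ _).trans (hab _)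
  have hx : (lx e fun i => ev a (var i : Poly K X)) = xm := by
    funext o; exact (ev_var _ _).trans (hab _)
  have hz : (lz e fun i => ev a (var i : Poly K X)) = zm := by
    funext o; exact (ev_var _ _).trans (hab _)
  have hB : (lB e fun i => ev a (var i : Poly K X)) = Bm K J := by
    exact (ev_var _ _).trans (hab _)
  have hR := rels_model (K := K) M
  have hwd : ∀ (l : List J) (q : Poly K X),
      ev a (wd (lx e var) l q) = wd xm l (ev a q) := by
    intro l q
    rw [ev_wd]
    congr 1
  have tE : ∀ o, ev a (lE e var o : Poly K X) = Em M o := fun o => congrFun hE o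
  have tA : ∀ o, ev a (lA e var o : Poly K X) = Am M o := fun o => congrFun hA o
  have tx : ∀ o, ev a (lx e var o : Poly K X) = xm o := fun o => congrFun hx o
  have tz : ∀ o, ev a (lz e var o : Poly K X) = zm o := fun o => congrFun hz o
  have tB : ev a (lB e var : Poly K X) = Bm K J := hB
  refine ⟨a, ?_, ?_⟩
  · rintro _ ⟨r, rfl⟩
    rcases r with ⟨i, j⟩ | ⟨i, j⟩ | j | p | p | j
    · simp only [relOf, map_sub, map_mul, tx]
      exact sub_eq_zero.2 (hR.xx i j)
    · simp only [relOf]
      split_ifs with hij
      · exact map_zero _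
      · simp only [map_sub, map_mul, tx, tz]
        exact sub_eq_zero.2 (hR.zx i j hij)
    · simp only [relOf, map_mul, tz, tB]
      exact hR.zB j
    · simp only [relOf, map_sub, map_mul, hwd, tE, tx]
      exact sub_eq_zero.2 (hR.pos p)
    · simp only [relOf, map_sub, map_add, map_mul, hwd, tE, tA, tz]
      exact sub_eq_zero.2 (hR.zero p)
    · simp only [relOf, map_sub, map_mul, tE, tx]
      exact sub_eq_zero.2 (hR.halt j)
  · intro s hs h
    have h1 : ev a (cfP e K s) = cf (Em M) xm (Bm K J) s := by
      have := hom_cf e K (toRH (ev a : Poly K X →ₙₐ[K] Mod K J)) s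
      have h2 : (lE e fun i => toRH (ev a : Poly K X →ₙₐ[K] Mod K J) (var i)) =
        Em M := hE
      have h3 : (lx e fun i => toRH (ev a : Poly K X →ₙₐ[K] Mod K J) (var i)) =
        xm := hx
      have h4 : (lB e fun i => toRH (ev a : Poly K X →ₙₐ[K] Mod K J) (var i)) =
        Bm K J := hB
      rw [h2, h3, h4] at this
      exact this
    rw [map_sub, map_mul, h1, tE, tB, sub_eq_zero] at h
    exact halts_of_model M s.1 s.2 hs h

end pres

end Pool.Agent.N575.WK
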