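import Pool.Agent.N575.WK.Pres

set_option autoImplicit false

/-! The standard identities of degree at least six hold in `W_K`. -/

namespace Pool.Agent.N575.WK

open Equiv

/-- the word given by a list of variables (`0` for the empty list) -/
noncomputable def word {K X : Type} [Field K] : List X → Poly K X
  | [] => 0
  | x :: l => mono x l

/-- The standard polynomial `s_n = ∑_σ sgn(σ) x_{σ(0)} x_{σ(1)} ⋯ x_{σ(n-1)}`. -/
noncomputable def stdPoly (K : Type) [Field K] (n : ℕ) : Poly K ℕ :=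
  ∑ σ : Perm (Fin n), ((Perm.sign σ : ℤ) : K) • word (List.ofFn fun i => ((σ i : Fin n) : ℕ))

variable {A : Type} [NonUnitalRing A]

/-- the product of a nonempty list -/
def pr : List A → A
  | [] => 0
  | x :: l => l.foldl (· * ·) x

theorem ev_word {K X : Type} [Field K] [Module K A] [IsScalarTower K A A] [SMulCommClass K A A]
    (a : X → A) (l : List X) : ev a (word l : Poly K X) = pr (l.map a) := by
  cases l with
  | nil => exact map_zero _
  | cons x l =>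
    change ev a (mono x l) = _
    rw [ev_mono]
    simp [wd, pr, List.foldl_map]

theorem foldl_add (l : List A) : ∀ a b : A,
    l.foldl (· * ·) (a + b) = l.foldl (· * ·) a + l.foldl (· * ·) b := by
  induction l with
  | nil => intro a b; rfl
  | cons x l ih => intro a b; simp only [List.foldl_cons]; rw [add_mul, ih]

theorem foldl_neg (l : List A) : ∀ a : A,
    l.foldl (· * ·) (-a) = -l.foldl (· * ·) a := by
  induction l with
  | nil => intro a; rfl
  | cons x l ih => intro a; simp only [List.foldl_cons]; rw [neg_mul, ih]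

theorem foldl_zero' (l : List A) : l.foldl (· * ·) (0 : A) = 0 := by
  induction l with
  | nil => rfl
  | cons x l ih => simp only [List.foldl_cons]; rw [zero_mul, ih]

theorem pr_ofFn {m : ℕ} (g : Fin (m + 6) → A) : pr (List.ofFn g) =
    (List.ofFn fun i : Fin m => g ⟨i + 6, by omega⟩).foldl (· * ·)
      (g ⟨0, by omega⟩ * g ⟨1, by omega⟩ * g ⟨2, by omega⟩ * g ⟨3, by omega⟩ * g ⟨4, by omega⟩ *
        g ⟨5, by omega⟩) := by
  rw [List.ofFn_succ, List.ofFn_succ, List.ofFn_succ, List.ofFn_succ, List.ofFn_succ,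
    List.ofFn_succ]
  rfl

theorem four_sum (h6 : ∀ a b c d e f : A, a * (b * c - c * b) * (d * e - e * d) * f = 0) {m : ℕ}
    (g : Fin (m + 6) → A) :
    pr (List.ofFn g) - pr (List.ofFn (g ∘ swap ⟨1, by omega⟩ ⟨2, by omega⟩)) -
      pr (List.ofFn (g ∘ swap ⟨3, by omega⟩ ⟨4, by omega⟩)) +
      pr (List.ofFn (g ∘ (swap ⟨1, by omega⟩ ⟨2, by omega⟩ * swap ⟨3, by omega⟩ ⟨4, by omega⟩ :
        Perm (Fin (m + 6))))) = 0 := by
  have hsw : ∀ (a b c : Fin (m + 6)), c ≠ a → c ≠ b → swap a b c = c := fun a b c h1 h2 =>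
    swap_apply_of_ne_of_ne h1 h2
  rw [pr_ofFn, pr_ofFn, pr_ofFn, pr_ofFn]
  simp only [Function.comp_apply, Perm.mul_apply]
  rw [swap_apply_left, swap_apply_right, swap_apply_left, swap_apply_right]
  have e0 : swap (⟨1, by omega⟩ : Fin (m + 6)) ⟨2, by omega⟩ ⟨0, by omega⟩ = ⟨0, by omega⟩ :=
    hsw _ _ _ (by simp) (by simp)
  have e0' : swap (⟨3, by omega⟩ : Fin (m + 6)) ⟨4, by omega⟩ ⟨0, by omega⟩ = ⟨0, by omega⟩ :=
    hsw _ _ _ (by simp) (by simp)
  have e1' : swap (⟨3, by omega⟩ : Fin (m + 6)) ⟨4, by omega⟩ ⟨1, by omega⟩ = ⟨1, by omega⟩ :=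
    hsw _ _ _ (by simp) (by simp)
  have e2' : swap (⟨3, by omega⟩ : Fin (m + 6)) ⟨4, by omega⟩ ⟨2, by omega⟩ = ⟨2, by omega⟩ :=
    hsw _ _ _ (by simp) (by simp)
  have e3 : swap (⟨1, by omega⟩ : Fin (m + 6)) ⟨2, by omega⟩ ⟨3, by omega⟩ = ⟨3, by omega⟩ :=
    hsw _ _ _ (by simp) (by simp)
  have e4 : swap (⟨1, by omega⟩ : Fin (m + 6)) ⟨2, by omega⟩ ⟨4, by omega⟩ = ⟨4, by omega⟩ :=
    hsw _ _ _ (by simp) (by simp)
  have e5 : swap (⟨1, by omega⟩ : Fin (m + 6)) ⟨2, by omega⟩ ⟨5, by omega⟩ = ⟨5, by omega⟩ :=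
    hsw _ _ _ (by simp) (by simp)
  have e5' : swap (⟨3, by omega⟩ : Fin (m + 6)) ⟨4, by omega⟩ ⟨5, by omega⟩ = ⟨5, by omega⟩ :=
    hsw _ _ _ (by simp) (by simp)
  have er : ∀ i : Fin m, swap (⟨1, by omega⟩ : Fin (m + 6)) ⟨2, by omega⟩ ⟨i + 6, by omega⟩ =
      ⟨i + 6, by omega⟩ := fun i => hsw _ _ _ (by simp) (by simp)
  have er' : ∀ i : Fin m, swap (⟨3, by omega⟩ : Fin (m + 6)) ⟨4, by omega⟩ ⟨i + 6, by omega⟩ =
      ⟨i + 6, by omega⟩ := fun i => hsw _ _ _ (by simp) (by simp)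
  simp only [e0, e0', e1', e2', e3, e4, e5, e5', er, er', swap_apply_left, swap_apply_right]
  rw [sub_eq_add_neg, sub_eq_add_neg, ← foldl_neg, ← foldl_neg, ← foldl_add, ← foldl_add,
    ← foldl_add]
  have := h6 (g ⟨0, by omega⟩) (g ⟨1, by omega⟩) (g ⟨2, by omega⟩) (g ⟨3, by omega⟩)
    (g ⟨4, by omega⟩) (g ⟨5, by omega⟩)
  rw [← foldl_zero' (List.ofFn fun i : Fin m => g ⟨i + 6, by omega⟩)]
  congr 1
  rw [← this]
  noncomm_ring

theorem std_zero {K : Type} [Field K] [CharZero K] [Module K A] [IsScalarTower K A A]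
    [SMulCommClass K A A]
    (h6 : ∀ a b c d e f : A, a * (b * c - c * b) * (d * e - e * d) * f = 0) {n : ℕ} (hn : 6 ≤ n)
    (a : ℕ → A) : ev a (stdPoly K n) = 0 := by
  obtain ⟨m, rfl⟩ := Nat.exists_eq_add_of_le' hn
  unfold stdPoly
  rw [map_sum]
  simp only [map_smul, ev_word, List.map_ofFn]
  set F : Perm (Fin (m + 6)) → A := fun σ => pr (List.ofFn (fun i => a (σ i))) with hF
  have hFd : ∀ σ : Perm (Fin (m + 6)), pr (List.ofFn (a ∘ fun i => ((σ i : Fin (m + 6)) : ℕ))) =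
      F σ := fun σ => rfl
  simp only [hFd]
  have key : ∀ τ : Perm (Fin (m + 6)),
      ∑ σ : Perm (Fin (m + 6)), ((Perm.sign σ : ℤ) : K) • F σ =
      ∑ σ : Perm (Fin (m + 6)), ((Perm.sign (σ * τ) : ℤ) : K) • F (σ * τ) := fun τ =>
    (Equiv.sum_comp (Equiv.mulRight τ) (fun σ => ((Perm.sign σ : ℤ) : K) • F σ)).symm
  set T := ∑ σ : Perm (Fin (m + 6)), ((Perm.sign σ : ℤ) : K) • F σ with hT
  have h12 : (⟨1, by omega⟩ : Fin (m + 6)) ≠ ⟨2, by omega⟩ := by simp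
  have h34 : (⟨3, by omega⟩ : Fin (m + 6)) ≠ ⟨4, by omega⟩ := by simp
  have k1 : T = ∑ σ : Perm (Fin (m + 6)), ((Perm.sign σ : ℤ) : K) •
      (- F (σ * swap ⟨1, by omega⟩ ⟨2, by omega⟩)) := by
    rw [key (swap ⟨1, by omega⟩ ⟨2, by omega⟩)]
    refine Finset.sum_congr rfl fun σ _ => ?_
    rw [Perm.sign_mul, Perm.sign_swap h12]
    simp
  have k2 : T = ∑ σ : Perm (Fin (m + 6)), ((Perm.sign σ : ℤ) : K) •
      (- F (σ * swap ⟨3, by omega⟩ ⟨4, by omega⟩)) := by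
    rw [key (swap ⟨3, by omega⟩ ⟨4, by omega⟩)]
    refine Finset.sum_congr rfl fun σ _ => ?_
    rw [Perm.sign_mul, Perm.sign_swap h34]
    simp
  have k3 : T = ∑ σ : Perm (Fin (m + 6)), ((Perm.sign σ : ℤ) : K) •
      (F (σ * (swap ⟨1, by omega⟩ ⟨2, by omega⟩ * swap ⟨3, by omega⟩ ⟨4, by omega⟩))) := by
    rw [key (swap ⟨1, by omega⟩ ⟨2, by omega⟩ * swap ⟨3, by omega⟩ ⟨4, by omega⟩)]
    refine Finset.sum_congr rfl fun σ _ => ?_
    rw [Perm.sign_mul, Perm.sign_mul, Perm.sign_swap h34, Perm.sign_swap h12]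
    simp
  have h4 : T + T + T + T = 0 := by
    nth_rewrite 2 [k1]
    nth_rewrite 2 [k2]
    nth_rewrite 2 [k3]
    rw [hT, ← Finset.sum_add_distrib, ← Finset.sum_add_distrib, ← Finset.sum_add_distrib]
    apply Finset.sum_eq_zero
    intro σ _
    rw [← smul_add, ← smul_add, ← smul_add]
    have := four_sum h6 (fun i => a (σ i))
    have e : F σ + -F (σ * swap ⟨1, by omega⟩ ⟨2, by omega⟩) +
        -F (σ * swap ⟨3, by omega⟩ ⟨4, by omega⟩) +
        F (σ * (swap ⟨1, by omega⟩ ⟨2, by omega⟩ * swap ⟨3, by omega⟩ ⟨4, by omega⟩)) = 0 := by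
      rw [← sub_eq_add_neg, ← sub_eq_add_neg]
      exact this
    rw [e, smul_zero]
  have h5 : (4 : K) • T = 0 := by
    rw [← h4]
    module
  exact (smul_eq_zero.1 h5).resolve_left (by norm_num)

end Pool.Agent.N575.WK
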